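import Pool.Agent.P8H97.FE.Stm3
import Pool.Agent.W93.GB4

/-! # Project FE, second part: Goldbach's problem for almost all even numbers from the starting files (helper97) -/

set_option autoImplicit false

namespace Pool.Agent.P8H97.FE

open Finset Filter
open Pool.Agent.H560R3.GB (g HL sing C₂ energy)

lemma energy_one (N : ℕ) : energy 1 N (fun m => 2 * m) ≤ N := by
  unfold energy
  have h1 : ((Icc 1 N : Finset ℕ)).card = N := by simp
  conv_rhs => rw [← h1]
  refine card_le_card_of_injOn (fun q => q.1 0) (fun q hq => ?_) (fun a ha b hb hab => ?_)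
  · rw [Finset.mem_coe, mem_filter, mem_product, Fintype.mem_piFinset] at hq
    exact hq.1.1 0
  · rw [Finset.mem_coe, mem_filter] at ha hb
    have h2 := ha.2
    have h3 := hb.2
    simp only [Fin.sum_univ_one] at h2 h3
    have hab' : a.1 0 = b.1 0 := hab
    have h4 : a.2 0 = b.2 0 := by omega
    refine Prod.ext (funext fun i => ?_) (funext fun i => ?_)
    · rw [Subsingleton.elim i 0]; exact hab'
    · rw [Subsingleton.elim i 0]; exact h4

theorem fam' : S_FAM := by
  obtain ⟨N₀, h⟩ := Pool.Agent.W93.GB.fam 1 2 0 2 le_rfl (1 / 2) (by norm_num)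
  refine ⟨N₀, fun N hN S hS hg => ?_⟩
  refine h N hN N (fun m => 2 * m) (fun m hm => ?_) ?_ S hS (fun m hm hgood => ?_)
  · rw [mem_Icc] at hm
    exact ⟨by omega, Dvd.intro _ rfl⟩
  · have h1 : (energy 1 N (fun m => 2 * m) : ℝ) ≤ N := by exact_mod_cast energy_one N
    have h2 : (0 : ℝ) ≤ N := Nat.cast_nonneg _
    rw [pow_zero, one_mul, mul_one, sq]
    exact mul_le_mul_of_nonneg_right h1 h2
  · have h1 := hg m hm
    have h2 := (abs_le.1 hgood.1).1
    linarith

end Pool.Agent.P8H97.FE
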