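import Pool.Agent.P8H97.FE.Stm

/-! # Project FE: the assembly (helper97) -/

set_option autoImplicit false

namespace Pool.Agent.P8H97.FE

open Finset Filter MeasureTheory Topology

/-- the shifts `⌊n ^ (c i)⌋` -/
noncomputable def sh {l : ℕ} (n : ℕ) (c : Fin l → ℝ) : Fin l → ℕ := fun i => ⌊(n : ℝ) ^ (c i)⌋₊

lemma sh_meas {l : ℕ} (n : ℕ) : Measurable (sh (l := l) n) := by
  refine measurable_pi_iff.2 fun i => ?_
  refine Nat.measurable_floor.comp ?_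
  exact (measurable_const.pow (measurable_pi_apply i))

lemma G_meas {l : ℕ} (n : ℕ) (T : Set (Fin l → ℕ)) : MeasurableSet {c : Fin l → ℝ | sh n c ∈ T} :=
  sh_meas n (Set.to_countable T).measurableSet

/-- the shifts are in the range of POS -/
lemma range_ok {A η x w : ℝ} (hA : 0 < A) (hx : 0 < x) (hxA : x < A) (hη : 0 < η) (hη2 : A * η < x) :
    ∀ᶠ n : ℕ in atTop, ((⌊(n : ℝ) ^ A⌋₊ : ℕ) : ℝ) ^ η ≤ (⌊Real.exp w * (n : ℝ) ^ x⌋₊ : ℝ) ∧
      (⌊Real.exp w * (n : ℝ) ^ x⌋₊ : ℝ) ≤ (⌊(n : ℝ) ^ A⌋₊ : ℕ) := by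
  have hcast : Tendsto (fun n : ℕ => (n : ℝ)) atTop atTop := tendsto_natCast_atTop_atTop
  have h1 : Tendsto (fun n : ℕ => (n : ℝ) ^ (x - A * η)) atTop atTop :=
    (tendsto_rpow_atTop (by linarith)).comp hcast
  have h2 : Tendsto (fun n : ℕ => (n : ℝ) ^ (A - x)) atTop atTop :=
    (tendsto_rpow_atTop (by linarith)).comp hcast
  have h3 : Tendsto (fun n : ℕ => (n : ℝ) ^ x) atTop atTop := (tendsto_rpow_atTop hx).comp hcast
  filter_upwards [h1.eventually_ge_atTop (2 * Real.exp (-w)), h2.eventually_ge_atTop (Real.exp w),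
    h3.eventually_ge_atTop (2 * Real.exp (-w)), eventually_ge_atTop 1] with n hn1 hn2 hn3 hn4
  have hn : (0 : ℝ) < n := by exact_mod_cast hn4
  have hew : Real.exp w * Real.exp (-w) = 1 := by rw [← Real.exp_add]; simp
  have hE : 0 < Real.exp w := Real.exp_pos _
  constructor
  · have e1 : ((⌊(n : ℝ) ^ A⌋₊ : ℕ) : ℝ) ^ η ≤ (n : ℝ) ^ (A * η) := by
      rw [Real.rpow_mul hn.le]
      exact Real.rpow_le_rpow (Nat.cast_nonneg _) (Nat.floor_le (by positivity)) hη.le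
    have e2 : Real.exp w * (n : ℝ) ^ x - 1 < (⌊Real.exp w * (n : ℝ) ^ x⌋₊ : ℝ) := by
      have := Nat.lt_floor_add_one (Real.exp w * (n : ℝ) ^ x)
      linarith
    have e3 : (n : ℝ) ^ x = (n : ℝ) ^ (A * η) * (n : ℝ) ^ (x - A * η) := by
      rw [← Real.rpow_add hn]; congr 1; ring
    have e4 : 2 * (n : ℝ) ^ (A * η) ≤ Real.exp w * (n : ℝ) ^ x := by
      rw [e3]
      have h5 : 0 < (n : ℝ) ^ (A * η) := by positivity
      have h6 : (n : ℝ) ^ (A * η) * (2 * Real.exp (-w)) ≤ (n : ℝ) ^ (A * η) * (n : ℝ) ^ (x - A * η) :=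
        mul_le_mul_of_nonneg_left hn1 h5.le
      have h7 := mul_le_mul_of_nonneg_left h6 hE.le
      calc 2 * (n : ℝ) ^ (A * η) = (Real.exp w * Real.exp (-w)) * (2 * (n : ℝ) ^ (A * η)) := by
            rw [hew, one_mul]
        _ = Real.exp w * ((n : ℝ) ^ (A * η) * (2 * Real.exp (-w))) := by ring
        _ ≤ _ := h7
    have e5 : 1 ≤ (n : ℝ) ^ (A * η) := Real.one_le_rpow (by exact_mod_cast hn4) (by positivity)
    linarith
  · have e1 : Real.exp w * (n : ℝ) ^ x ≤ (n : ℝ) ^ A := by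
      have e2 : (n : ℝ) ^ A = (n : ℝ) ^ (A - x) * (n : ℝ) ^ x := by
        rw [← Real.rpow_add hn]; congr 1; ring
      rw [e2]
      exact mul_le_mul_of_nonneg_right hn2 (by positivity)
    exact_mod_cast Nat.floor_le_floor e1

open Classical in
/-- the assembly for the exponents between `1 / (k + 1)` and `A` -/
theorem main_k (hP : S_POS) (hB : S_BOX) (hD : S_DEN) (l : ℕ) (hl : 0 < l) (A : ℝ) (hA : 0 < A) (k : ℕ) :
    ∀ᵐ c : Fin l → ℝ, (∀ i, 1 / ((k : ℝ) + 1) < c i ∧ c i < A) → ∃ κ : ℝ, 0 < κ ∧ ∃ δ : ℝ, 0 < δ ∧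
      ∃ᶠ X : ℕ in atTop, δ * X ≤ (((Icc 1 X).filter (fun n : ℕ =>
        κ * R l ⌊(n : ℝ) ^ A⌋₊ ≤ cnt ⌊(n : ℝ) ^ A⌋₊ (sh n c))).card : ℝ) := by
  obtain ⟨κ, hκ, hpos⟩ := hP l (1 / (2 * ((k : ℝ) + 1) * A)) (by positivity)
  set T : ℕ → Set (Fin l → ℕ) := fun n => {h | κ * R l ⌊(n : ℝ) ^ A⌋₊ ≤ cnt ⌊(n : ℝ) ^ A⌋₊ h} with hT
  have hNt : Tendsto (fun n : ℕ => ⌊(n : ℝ) ^ A⌋₊) atTop atTop :=
    tendsto_nat_floor_atTop.comp ((tendsto_rpow_atTop hA).comp tendsto_natCast_atTop_atTop)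
  have h1 := hD l hl (fun n => {c : Fin l → ℝ | sh n c ∈ T n}) (fun n => G_meas n (T n))
    {x | ∀ i, 1 / ((k : ℝ) + 1) < x i ∧ x i < A} (by
      intro x hx
      have hx0 : ∀ i, 0 < x i := fun i => lt_trans (by positivity) (hx i).1
      have hk : (0 : ℝ) < (k : ℝ) + 1 := by positivity
      refine hB l hl x hx0 κ hκ T fun w hw => ?_
      have h2 : ∀ i, ∀ᶠ n : ℕ in atTop, ((⌊(n : ℝ) ^ A⌋₊ : ℕ) : ℝ) ^ (1 / (2 * ((k : ℝ) + 1) * A)) ≤
          (⌊Real.exp w * (n : ℝ) ^ (x i)⌋₊ : ℝ) ∧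
          (⌊Real.exp w * (n : ℝ) ^ (x i)⌋₊ : ℝ) ≤ (⌊(n : ℝ) ^ A⌋₊ : ℕ) := by
        intro i
        refine range_ok hA (hx0 i) (hx i).2 (by positivity) ?_
        have e1 : A * (1 / (2 * ((k : ℝ) + 1) * A)) = 1 / ((k : ℝ) + 1) / 2 := by
          field_simp
        rw [e1]
        have h3 := (hx i).1
        have h4 : 0 < 1 / ((k : ℝ) + 1) := by positivity
        linarith
      filter_upwards [eventually_all.2 h2, hNt.eventually hpos] with n hn1 hn2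
      have h5 := hn2 (fun i => ⌊Real.exp w * (n : ℝ) ^ (x i)⌋₊)
        (fun i => ⟨(hn1 i).1, by exact_mod_cast (hn1 i).2⟩)
      refine h5.trans (le_of_eq ?_)
      congr 2)
  filter_upwards [h1] with c hc hcA
  obtain ⟨δ, hδ, h2⟩ := hc hcA
  refine ⟨κ, hκ, δ, hδ, h2.mono fun X hX => hX.trans (le_of_eq ?_)⟩
  congr 2

end Pool.Agent.P8H97.FE
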