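import Pool.Agent.P8H97.FE.Gen
import Pool.Agent.P8H97.FE.Fin

/-! # Project FE: progressions of arbitrary length, the assembly (helper97) -/

set_option autoImplicit false

namespace Pool.Agent.P8H97.FE

open Finset Filter MeasureTheory Topology

/-- the property of the difference -/
def gdl (l : ℕ) (κ : ℝ) (K d : ℕ) : Prop := 2 ≤ d ∧ κ * (d / Real.log d ^ (l + 1)) ≤ prog l (K * d) d

open Classical in
theorem prog_ae (l : ℕ) (hT : S_THRl l) (hB : S_BOX) (hD : S_DEN) :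
    ∃ κ : ℝ, 0 < κ ∧ ∃ K : ℕ, ∀ᵐ c : Fin 1 → ℝ, (∀ i, 0 < c i) → ∃ δ : ℝ, 0 < δ ∧
      ∃ᶠ X : ℕ in atTop, δ * X ≤ (((Icc 1 X).filter (fun n : ℕ => gdl l κ K (sh n c 0))).card : ℝ) := by
  obtain ⟨κ, hκ, K, hthr⟩ := hT
  refine ⟨κ, hκ, K, ?_⟩
  set T : Set (Fin 1 → ℕ) := {h | gdl l κ K (h 0)} with hTd
  have h1 := hD 1 one_pos (fun n => {c : Fin 1 → ℝ | sh n c ∈ T}) (fun n => G_meas n T) {x | ∀ i, 0 < x i} (by
    intro x hx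
    refine hB 1 one_pos x hx κ hκ (fun _ => T) fun w hw => ?_
    have h2 : Tendsto (fun n : ℕ => ⌊Real.exp w * (n : ℝ) ^ (x 0)⌋₊) atTop atTop :=
      tendsto_nat_floor_atTop.comp (((tendsto_rpow_atTop (hx 0)).comp
        tendsto_natCast_atTop_atTop).const_mul_atTop (Real.exp_pos w))
    filter_upwards [h2.eventually hthr] with n hn
    rw [Fin.prod_univ_one]
    refine hn.trans ?_
    have h3 : ((Icc 1 ⌊Real.exp w * (n : ℝ) ^ (x 0)⌋₊).filter (fun d : ℕ => 2 ≤ d ∧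
        κ * (d / Real.log d ^ (l + 1)) ≤ prog l (K * d) d)).card ≤
        ((box (fun i => ⌊Real.exp w * (n : ℝ) ^ (x i)⌋₊)).filter (fun h => h ∈ T)).card := by
      refine card_le_card_of_injOn (fun d _ => d) (fun d hd => ?_) (fun a _ b _ hab => congrFun hab 0)
      rw [Finset.mem_coe, mem_filter] at hd
      rw [Finset.mem_coe, mem_filter, Fintype.mem_piFinset]
      refine ⟨fun i => ?_, hd.2⟩
      rw [Subsingleton.elim i 0]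
      exact hd.1
    exact_mod_cast h3)
  filter_upwards [h1] with c hc hc0
  obtain ⟨δ, hδ, h2⟩ := hc hc0
  refine ⟨δ, hδ, h2.mono fun X hX => hX.trans (le_of_eq ?_)⟩
  congr 2

/-- the number of the `m ≤ K n ^ c` for which all `m + j ⌊n ^ c⌋`, `j ≤ l`, are prime -/
noncomputable def countl (l : ℕ) (K c : ℝ) (n : ℕ) : ℕ :=
  {m : ℕ | (m : ℝ) ≤ K * (n : ℝ) ^ c ∧ ∀ j ≤ l, (m + j * ⌊(n : ℝ) ^ c⌋₊).Prime}.ncard

lemma prog_le_countl (l K : ℕ) (c : ℝ) (n : ℕ) :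
    prog l (K * ⌊(n : ℝ) ^ c⌋₊) ⌊(n : ℝ) ^ c⌋₊ ≤ countl l K c n := by
  classical
  unfold prog countl
  rw [← Set.ncard_coe_finset]
  refine Set.ncard_le_ncard (fun m hm => ?_) ?_
  · rw [Finset.mem_coe, Finset.mem_filter, Finset.mem_Icc] at hm
    refine ⟨?_, fun j hj => hm.2 j (mem_range.2 (by omega))⟩
    have h1 : (m : ℝ) ≤ ((K * ⌊(n : ℝ) ^ c⌋₊ : ℕ) : ℝ) := by exact_mod_cast hm.1.2
    refine h1.trans ?_
    push_cast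
    exact mul_le_mul_of_nonneg_left (Nat.floor_le (by positivity)) (Nat.cast_nonneg _)
  · refine (Set.finite_Iic ⌊(K : ℝ) * (n : ℝ) ^ c⌋₊).subset fun m hm => ?_
    exact Nat.le_floor hm.1

lemma floor_gel (l : ℕ) {c : ℝ} (hc : 0 < c) : ∀ᶠ n : ℕ in atTop,
    (1 / (2 * c ^ (l + 1))) * ((n : ℝ) ^ c / Real.log n ^ (l + 1)) ≤
      (⌊(n : ℝ) ^ c⌋₊ : ℝ) / Real.log ⌊(n : ℝ) ^ c⌋₊ ^ (l + 1) := by
  have hcast : Tendsto (fun n : ℕ => (n : ℝ)) atTop atTop := tendsto_natCast_atTop_atTop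
  have h1 : Tendsto (fun n : ℕ => (n : ℝ) ^ c) atTop atTop := (tendsto_rpow_atTop hc).comp hcast
  filter_upwards [h1.eventually_ge_atTop 3, eventually_ge_atTop 2] with n hn1 hn2
  have hn : (1 : ℝ) < n := by exact_mod_cast hn2
  have hlog : 0 < Real.log n := Real.log_pos hn
  obtain ⟨N, hN⟩ : ∃ N, N = ⌊(n : ℝ) ^ c⌋₊ := ⟨_, rfl⟩
  rw [← hN]
  have h2 : (N : ℝ) ≤ (n : ℝ) ^ c := by rw [hN]; exact Nat.floor_le (by positivity)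
  have h3 : (n : ℝ) ^ c < N + 1 := by rw [hN]; exact Nat.lt_floor_add_one _
  have h4 : (n : ℝ) ^ c / 2 ≤ N := by linarith
  have h5 : (1 : ℝ) < N := by linarith
  have h6 : 0 < Real.log N := Real.log_pos h5
  have h7 : Real.log N ≤ c * Real.log n := by
    rw [← Real.log_rpow (by linarith)]
    exact Real.log_le_log (by linarith) h2
  calc (1 / (2 * c ^ (l + 1))) * ((n : ℝ) ^ c / Real.log n ^ (l + 1)) =
        ((n : ℝ) ^ c / 2) / (c * Real.log n) ^ (l + 1) := by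
        rw [mul_pow]; field_simp
    _ ≤ (N : ℝ) / (c * Real.log n) ^ (l + 1) := by gcongr
    _ ≤ (N : ℝ) / Real.log N ^ (l + 1) := by gcongr

open Classical in
theorem threel (l : ℕ) (hT : S_THRl l) (hB : S_BOX) (hD : S_DEN) :
    ∃ K : ℝ, 0 < K ∧ ∀ᵐ c : ℝ, 0 < c → ∃ κ : ℝ, 0 < κ ∧ ∃ᶠ X : ℕ in atTop,
      κ * X ≤ ({n : ℕ | 1 ≤ n ∧ n ≤ X ∧ κ * ((n : ℝ) ^ c / Real.log n ^ (l + 1)) ≤ countl l K c n}.ncard : ℝ) := by
  obtain ⟨κ, hκ, K0, h0⟩ := prog_ae l hT hB hD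
  obtain ⟨K, hK⟩ : ∃ K, K = K0 + 1 := ⟨_, rfl⟩
  refine ⟨(K : ℕ), by rw [hK]; positivity, ?_⟩
  have h1 : ∀ᵐ c : ℝ, (∀ i : Fin 1, 0 < (fun _ : Fin 1 => c) i) → ∃ δ : ℝ, 0 < δ ∧
      ∃ᶠ X : ℕ in atTop, δ * X ≤ (((Icc 1 X).filter (fun n : ℕ =>
        gdl l κ K0 (sh n (fun _ : Fin 1 => c) 0))).card : ℝ) :=
    (MeasurePreserving.symm _ (volume_preserving_funUnique (Fin 1) ℝ)).quasiMeasurePreserving.ae h0
  filter_upwards [h1] with c hc hc0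
  obtain ⟨δ, hδ, h2⟩ := hc fun _ => hc0
  obtain ⟨n₀, hn₀⟩ := eventually_atTop.1 (floor_gel l hc0)
  obtain ⟨κ', hκ'⟩ : ∃ κ', κ' = min (δ / 2) (κ * (1 / (2 * c ^ (l + 1)))) := ⟨_, rfl⟩
  have hκ'0 : 0 < κ' := by rw [hκ']; exact lt_min (by positivity) (by positivity)
  have hκ'1 : κ' ≤ δ / 2 := by rw [hκ']; exact min_le_left _ _
  have hκ'2 : κ' ≤ κ * (1 / (2 * c ^ (l + 1))) := by rw [hκ']; exact min_le_right _ _
  refine ⟨κ', hκ'0, ?_⟩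
  have h3 : ∀ᶠ X : ℕ in atTop, (n₀ : ℝ) ≤ δ / 2 * X := by
    have : Tendsto (fun X : ℕ => δ / 2 * (X : ℝ)) atTop atTop :=
      tendsto_natCast_atTop_atTop.const_mul_atTop (by positivity)
    exact this.eventually_ge_atTop _
  refine (h2.and_eventually h3).mono ?_
  rintro X ⟨hX1, hX2⟩
  have hfin : {n : ℕ | 1 ≤ n ∧ n ≤ X ∧ κ' * ((n : ℝ) ^ c / Real.log n ^ (l + 1)) ≤
      countl l (K : ℕ) c n}.Finite :=
    (Set.finite_Icc 1 X).subset fun n hn => ⟨hn.1, hn.2.1⟩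
  have h4 : ((Icc 1 X).filter (fun n : ℕ => gdl l κ K0 (sh n (fun _ : Fin 1 => c) 0))).card ≤
      n₀ + {n : ℕ | 1 ≤ n ∧ n ≤ X ∧ κ' * ((n : ℝ) ^ c / Real.log n ^ (l + 1)) ≤
        countl l (K : ℕ) c n}.ncard := by
    rw [Set.ncard_eq_toFinset_card _ hfin]
    refine (card_le_card (t := range n₀ ∪ hfin.toFinset) ?_).trans
      ((card_union_le _ _).trans (by rw [card_range]))
    intro n hn
    rw [mem_filter, mem_Icc] at hn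
    rw [mem_union, mem_range, Set.Finite.mem_toFinset]
    rcases Nat.lt_or_ge n n₀ with h5 | h5
    · exact Or.inl h5
    right
    refine ⟨hn.1.1, hn.1.2, ?_⟩
    have h6 := hn₀ n h5
    have h7 : 0 ≤ (n : ℝ) ^ c / Real.log n ^ (l + 1) := by
      have : 0 ≤ Real.log (n : ℝ) := Real.log_natCast_nonneg n
      positivity
    have h8 : κ * ((⌊(n : ℝ) ^ c⌋₊ : ℝ) / Real.log ⌊(n : ℝ) ^ c⌋₊ ^ (l + 1)) ≤
        (prog l (K0 * ⌊(n : ℝ) ^ c⌋₊) ⌊(n : ℝ) ^ c⌋₊ : ℝ) := hn.2.2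
    have h9 : (prog l (K0 * ⌊(n : ℝ) ^ c⌋₊) ⌊(n : ℝ) ^ c⌋₊ : ℝ) ≤ countl l (K : ℕ) c n := by
      have h10 : prog l (K0 * ⌊(n : ℝ) ^ c⌋₊) ⌊(n : ℝ) ^ c⌋₊ ≤ prog l (K * ⌊(n : ℝ) ^ c⌋₊) ⌊(n : ℝ) ^ c⌋₊ := by
        unfold prog
        refine card_le_card (filter_subset_filter _ (Icc_subset_Icc_right ?_))
        exact Nat.mul_le_mul_right _ (by omega)
      exact_mod_cast h10.trans (prog_le_countl l K c n)
    calc κ' * ((n : ℝ) ^ c / Real.log n ^ (l + 1)) ≤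
          κ * (1 / (2 * c ^ (l + 1))) * ((n : ℝ) ^ c / Real.log n ^ (l + 1)) :=
          mul_le_mul_of_nonneg_right hκ'2 h7
      _ = κ * ((1 / (2 * c ^ (l + 1))) * ((n : ℝ) ^ c / Real.log n ^ (l + 1))) := by ring
      _ ≤ κ * ((⌊(n : ℝ) ^ c⌋₊ : ℝ) / Real.log ⌊(n : ℝ) ^ c⌋₊ ^ (l + 1)) := mul_le_mul_of_nonneg_left h6 hκ.le
      _ ≤ _ := h8.trans h9
  have h8 : (((Icc 1 X).filter (fun n : ℕ => gdl l κ K0 (sh n (fun _ : Fin 1 => c) 0))).card : ℝ) ≤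
      n₀ + ({n : ℕ | 1 ≤ n ∧ n ≤ X ∧ κ' * ((n : ℝ) ^ c / Real.log n ^ (l + 1)) ≤
        countl l (K : ℕ) c n}.ncard : ℝ) := by
    exact_mod_cast h4
  have h9 : κ' * (X : ℝ) ≤ δ / 2 * X := mul_le_mul_of_nonneg_right hκ'1 (Nat.cast_nonneg _)
  linarith

theorem three2l {l : ℕ} {K c κ : ℝ} (hκ : 0 < κ)
    (h : ∃ᶠ X : ℕ in atTop, κ * X ≤
      ({n : ℕ | 1 ≤ n ∧ n ≤ X ∧ κ * ((n : ℝ) ^ c / Real.log n ^ (l + 1)) ≤ countl l K c n}.ncard : ℝ)) (N : ℕ) :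
    ∃ m n : ℕ, N ≤ n ∧ ∀ j ≤ l, (m + j * ⌊(n : ℝ) ^ c⌋₊).Prime := by
  have h3 : ∀ᶠ X : ℕ in atTop, ((N + 2 : ℕ) : ℝ) < κ * X := by
    have : Tendsto (fun X : ℕ => κ * (X : ℝ)) atTop atTop :=
      tendsto_natCast_atTop_atTop.const_mul_atTop hκ
    exact this.eventually_gt_atTop _
  obtain ⟨X, hX1, hX2⟩ := (h.and_eventually h3).exists
  have h4 : ∃ n : ℕ, N + 2 ≤ n ∧ κ * ((n : ℝ) ^ c / Real.log n ^ (l + 1)) ≤ countl l K c n := by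
    by_contra hcon
    have h5 : {n : ℕ | 1 ≤ n ∧ n ≤ X ∧ κ * ((n : ℝ) ^ c / Real.log n ^ (l + 1)) ≤ countl l K c n} ⊆
        (Finset.range (N + 2) : Set ℕ) := by
      rintro n ⟨h6, h7, h8⟩
      rw [Finset.coe_range, Set.mem_Iio]
      by_contra h9
      exact hcon ⟨n, not_lt.1 h9, h8⟩
    have h6 := Set.ncard_le_ncard h5 (Finset.finite_toSet _)
    rw [Set.ncard_coe_finset, card_range] at h6
    have h7 : ({n : ℕ | 1 ≤ n ∧ n ≤ X ∧ κ * ((n : ℝ) ^ c / Real.log n ^ (l + 1)) ≤ countl l K c n}.ncard : ℝ) ≤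
        ((N + 2 : ℕ) : ℝ) := by exact_mod_cast h6
    linarith
  obtain ⟨n, hn1, hn2⟩ := h4
  have hn : (1 : ℝ) < n := by
    have : 1 < n := by omega
    exact_mod_cast this
  have h5 : 0 < κ * ((n : ℝ) ^ c / Real.log n ^ (l + 1)) := by
    have : 0 < Real.log (n : ℝ) := Real.log_pos hn
    positivity
  have h6 : 0 < countl l K c n := by
    have : (0 : ℝ) < countl l K c n := lt_of_lt_of_le h5 hn2
    exact_mod_cast this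
  obtain ⟨m, hm⟩ := Set.nonempty_of_ncard_ne_zero h6.ne'
  exact ⟨m, n, by omega, hm.2⟩

theorem finall (l : ℕ) (hT : S_THRl l) (hB : S_BOX) (hD : S_DEN) :
    (∃ K : ℝ, 0 < K ∧ ∀ᵐ c : ℝ, 0 < c → ∃ κ : ℝ, 0 < κ ∧ ∃ᶠ X : ℕ in atTop,
      κ * X ≤ ({n : ℕ | 1 ≤ n ∧ n ≤ X ∧
        κ * ((n : ℝ) ^ c / Real.log n ^ (l + 1)) ≤ countl l K c n}.ncard : ℝ)) ∧
    ∀ᵐ c : ℝ, 0 < c → ∀ N : ℕ, ∃ m n : ℕ, N ≤ n ∧ ∀ j ≤ l, (m + j * ⌊(n : ℝ) ^ c⌋₊).Prime := by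
  obtain ⟨K, hK, h⟩ := threel l hT hB hD
  refine ⟨⟨K, hK, h⟩, ?_⟩
  filter_upwards [h] with c hc hc0 N
  obtain ⟨κ, hκ, h1⟩ := hc hc0
  exact three2l hκ h1 N

/-- the number of the progressions of `l + 1` primes with first term and difference at most `N` -/
noncomputable def pairs (l N : ℕ) : ℕ :=
  {p : ℕ × ℕ | 1 ≤ p.1 ∧ p.1 ≤ N ∧ 1 ≤ p.2 ∧ p.2 ≤ N ∧ ∀ j ≤ l, (p.1 + j * p.2).Prime}.ncard

lemma pairs_eq (l N : ℕ) : pairs l N = ∑ d ∈ Icc 1 N, prog l N d := by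
  classical
  have h1 : {p : ℕ × ℕ | 1 ≤ p.1 ∧ p.1 ≤ N ∧ 1 ≤ p.2 ∧ p.2 ≤ N ∧ ∀ j ≤ l, (p.1 + j * p.2).Prime} =
      (((Icc 1 N ×ˢ Icc 1 N).filter (fun p : ℕ × ℕ => ∀ j ∈ range (l + 1), (p.1 + j * p.2).Prime) :
        Finset (ℕ × ℕ)) : Set (ℕ × ℕ)) := by
    ext p
    rw [Finset.mem_coe, mem_filter, mem_product, mem_Icc, mem_Icc]
    constructor
    · rintro ⟨h1, h2, h3, h4, h5⟩
      exact ⟨⟨⟨h1, h2⟩, h3, h4⟩, fun j hj => h5 j (by rw [mem_range] at hj; omega)⟩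
    · rintro ⟨⟨⟨h1, h2⟩, h3, h4⟩, h5⟩
      exact ⟨h1, h2, h3, h4, fun j hj => h5 j (mem_range.2 (by omega))⟩
  unfold pairs prog
  rw [h1, Set.ncard_coe_finset, card_filter, sum_product_right]
  exact sum_congr rfl fun d _ => (card_filter _ _).symm

lemma APl_of {l : ℕ} (h : ∃ κ : ℝ, 0 < κ ∧ ∀ᶠ N : ℕ in atTop,
    κ * ((N : ℝ) ^ 2 / Real.log N ^ (l + 1)) ≤ (pairs l N : ℝ)) : S_APl l := by
  obtain ⟨κ, hκ, h1⟩ := h
  refine ⟨κ, hκ, h1.mono fun N hN => le_trans (le_of_eq ?_) (hN.trans (le_of_eq ?_))⟩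
  · ring
  · rw [pairs_eq]
    push_cast
    rfl

end Pool.Agent.P8H97.FE
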