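import Pool.Agent.P8H97.FE.Stm3

/-!
# Project FE (helper97): progressions of arbitrary length, the second moment and the proportion of the differences

Generalisation of the packages UP (helper88) and THR (helper52), whose proofs are used here.
-/

set_option autoImplicit false

namespace Pool.Agent.P8H97.FE

open Finset Filter MeasureTheory Topology
open Pool.Agent.Y851.DK (sg sgn P_SV P_AVG)

/-- the number of the `m ≤ N` for which `m`, `m + d`, ..., `m + l d` are prime -/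
def prog (l N d : ℕ) : ℕ := ((Icc 1 N).filter (fun m => ∀ j ∈ range (l + 1), (m + j * d).Prime)).card

/-- the lower bound on average over the differences -/
def S_APl (l : ℕ) : Prop := ∃ κ : ℝ, 0 < κ ∧ ∀ᶠ N : ℕ in atTop,
  κ * (N * (N / Real.log N ^ (l + 1))) ≤ ∑ d ∈ Icc 1 N, (prog l N d : ℝ)

/-- the second moment -/
def S_UPl (l : ℕ) : Prop := ∃ C : ℝ, 1 ≤ C ∧ ∀ᶠ N : ℕ in atTop,
  ∑ d ∈ Icc 1 N, (prog l N d : ℝ) ^ 2 ≤ C * (N * (N / Real.log N ^ (l + 1)) ^ 2)

/-- a positive proportion of the differences -/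
def S_THRl (l : ℕ) : Prop := ∃ κ : ℝ, 0 < κ ∧ ∃ K : ℕ, ∀ᶠ N : ℕ in atTop,
  κ * N ≤ (((Icc 1 N).filter (fun d : ℕ => 2 ≤ d ∧ κ * (d / Real.log d ^ (l + 1)) ≤
    prog l (K * d) d)).card : ℝ)

theorem sg_zero' : sg 0 = 0 := by simp [sg]

theorem sg_nonneg' (m : ℕ) : 0 ≤ sg m := sum_nonneg fun _ _ => by positivity

theorem sg_mul_le {k d : ℕ} (hd : 1 ≤ d) : sg (k * d) ≤ sg k + sg d := by
  rcases Nat.eq_zero_or_pos k with hk | hk
  · rw [hk, zero_mul, sg_zero']
    linarith [sg_nonneg' d]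
  unfold sg
  rw [Nat.primeFactors_mul (by omega) (by omega)]
  have h1 := sum_union_inter (s₁ := k.primeFactors) (s₂ := d.primeFactors)
    (f := fun p : ℕ => (1 : ℝ) / p)
  have h2 : 0 ≤ ∑ p ∈ k.primeFactors ∩ d.primeFactors, (1 : ℝ) / p :=
    sum_nonneg fun _ _ => by positivity
  linarith

theorem sgn_one' (m : ℕ) : sgn 1 m = sg m := by
  unfold sgn sg
  congr 1
  apply filter_true_of_mem
  intro p hp h
  exact (Nat.prime_of_mem_primeFactors hp).one_lt.ne' (Nat.dvd_one.1 h)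

theorem prog_eq (l N d : ℕ) : prog l N d = cnt N (fun i : Fin l => ((i : ℕ) + 1) * d) := by
  unfold prog cnt
  congr 1
  apply filter_congr
  intro m _
  constructor
  · intro h
    refine ⟨by simpa using h 0 (by simp), fun i => h _ ?_⟩
    rw [mem_range]
    omega
  · rintro ⟨h1, h2⟩ j hj
    rw [mem_range] at hj
    rcases j with _ | j
    · simpa using h1
    · exact h2 ⟨j, by omega⟩

theorem S_le' (l : ℕ) {d : ℕ} (hd : 1 ≤ d) : S (fun i : Fin l => ((i : ℕ) + 1) * d) ≤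
    (2 * l + l ^ 2) * ((∑ k ∈ range (l + 1), sg k) + sg d) := by
  have h0 : ∀ k, k ≤ l → sg (k * d) ≤ (∑ k ∈ range (l + 1), sg k) + sg d := by
    intro k hk
    have h1 : sg k ≤ ∑ k ∈ range (l + 1), sg k :=
      single_le_sum (f := fun k => sg k) (fun i _ => sg_nonneg' i) (mem_range.2 (by omega))
    linarith [sg_mul_le (k := k) hd]
  unfold S
  have h1 : ∑ i : Fin l, sg (((i : ℕ) + 1) * d) ≤ l * ((∑ k ∈ range (l + 1), sg k) + sg d) := by
    calc ∑ i : Fin l, sg (((i : ℕ) + 1) * d) ≤ ∑ i : Fin l, ((∑ k ∈ range (l + 1), sg k) + sg d) :=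
          sum_le_sum fun i _ => h0 _ (by omega)
      _ = _ := by rw [sum_const, card_univ, Fintype.card_fin, nsmul_eq_mul]
  have h2 : ∀ i : Fin l, ∑ j : Fin l, sg (((((j : ℕ) + 1) * d : ℕ) : ℤ) - ((((i : ℕ) + 1) * d : ℕ) : ℤ)).natAbs ≤
      l * ((∑ k ∈ range (l + 1), sg k) + sg d) := by
    intro i
    calc ∑ j : Fin l, sg (((((j : ℕ) + 1) * d : ℕ) : ℤ) - ((((i : ℕ) + 1) * d : ℕ) : ℤ)).natAbs ≤
          ∑ j : Fin l, ((∑ k ∈ range (l + 1), sg k) + sg d) := by
          refine sum_le_sum fun j _ => ?_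
          have h3 : (((((j : ℕ) + 1) * d : ℕ) : ℤ) - ((((i : ℕ) + 1) * d : ℕ) : ℤ)).natAbs =
              ((j : ℤ) - (i : ℤ)).natAbs * d := by
            have h4 : ((((j : ℕ) + 1) * d : ℕ) : ℤ) - ((((i : ℕ) + 1) * d : ℕ) : ℤ) =
                ((j : ℤ) - (i : ℤ)) * (d : ℤ) := by push_cast; ring
            rw [h4, Int.natAbs_mul, Int.natAbs_natCast]
          rw [h3]
          refine h0 _ ?_
          have h5 := i.2
          have h6 := j.2
          omega
      _ = _ := by rw [sum_const, card_univ, Fintype.card_fin, nsmul_eq_mul]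
  have h3 : ∑ i : Fin l, ∑ j : Fin l,
      sg (((((j : ℕ) + 1) * d : ℕ) : ℤ) - ((((i : ℕ) + 1) * d : ℕ) : ℤ)).natAbs ≤
      l * (l * ((∑ k ∈ range (l + 1), sg k) + sg d)) := by
    calc _ ≤ ∑ i : Fin l, (l * ((∑ k ∈ range (l + 1), sg k) + sg d) : ℝ) := sum_le_sum fun i _ => h2 i
      _ = _ := by rw [sum_const, card_univ, Fintype.card_fin, nsmul_eq_mul]
  calc _ ≤ 2 * (l * ((∑ k ∈ range (l + 1), sg k) + sg d)) +
        l * (l * ((∑ k ∈ range (l + 1), sg k) + sg d)) :=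
        add_le_add (mul_le_mul_of_nonneg_left h1 (by norm_num)) h3
    _ = _ := by ring

theorem upl (l : ℕ) (hl : 1 ≤ l) : P_AVG → S_SVB → S_UPl l := by
  intro hA hS
  have hlR : (1 : ℝ) ≤ l := by exact_mod_cast hl
  obtain ⟨C0, hC0, h0⟩ := hS l
  obtain ⟨Q, hQ⟩ : ∃ Q : ℝ, Q = 2 * l + l ^ 2 := ⟨_, rfl⟩
  have hQ0 : 0 < Q := by rw [hQ]; positivity
  obtain ⟨M, hM⟩ : ∃ M : ℝ, M = ∑ k ∈ range (l + 1), sg k := ⟨_, rfl⟩
  have hM0 : 0 ≤ M := by rw [hM]; exact sum_nonneg fun i _ => sg_nonneg' i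
  obtain ⟨C1, hC1, h1⟩ := hA (2 * C0 * Q) 1 (by positivity) one_pos
  refine ⟨C0 ^ 2 * Real.exp (2 * C0 * Q * M) * C1, ?_, ?_⟩
  · have h2 : 1 ≤ Real.exp (2 * C0 * Q * M) := Real.one_le_exp (by positivity)
    have h3 : 1 ≤ C0 ^ 2 := one_le_pow₀ hC0
    exact one_le_mul_of_one_le_of_one_le (one_le_mul_of_one_le_of_one_le h3 h2) hC1
  filter_upwards [h0, tendsto_natCast_atTop_atTop.eventually h1, eventually_ge_atTop 1] with N hN0 hN1 hN
  have hNR : (1 : ℝ) ≤ N := by exact_mod_cast hN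
  have h2 := hN1 N (by rw [Real.rpow_one]) le_rfl 1 0 le_rfl (by push_cast; nlinarith)
    (by push_cast; positivity)
  have h3 : ∑ x ∈ Icc 1 N, Real.exp (2 * C0 * Q * sg x) ≤ C1 * N := by
    refine le_trans (le_of_eq ?_) h2
    refine sum_congr rfl fun x _ => ?_
    rw [sgn_one']
    congr 3
    simp
  have h4 : ∀ d ∈ Icc 1 N, (prog l N d : ℝ) ^ 2 ≤
      C0 ^ 2 * Real.exp (2 * C0 * Q * M) * R l N ^ 2 * Real.exp (2 * C0 * Q * sg d) := by
    intro d hd
    rw [mem_Icc] at hd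
    have hinj : Function.Injective (fun i : Fin l => ((i : ℕ) + 1) * d) := by
      intro i j hij
      have h5 : (i : ℕ) + 1 = (j : ℕ) + 1 := Nat.eq_of_mul_eq_mul_right (by omega) hij
      exact Fin.ext (by omega)
    have h5 := hN0 (fun i : Fin l => ((i : ℕ) + 1) * d) hinj (fun i => Nat.mul_pos (by omega) (by omega))
    rw [← prog_eq] at h5
    have hR : 0 ≤ R l N := by
      unfold R
      have : 0 ≤ Real.log N := Real.log_nonneg hNR
      positivity
    have h6 : (prog l N d : ℝ) ≤ C0 * Real.exp (C0 * (Q * (M + sg d))) * R l N := by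
      refine h5.trans ?_
      apply mul_le_mul_of_nonneg_right _ hR
      apply mul_le_mul_of_nonneg_left _ (by linarith)
      refine Real.exp_le_exp.2 (mul_le_mul_of_nonneg_left ?_ (by linarith))
      rw [hQ, hM]
      exact S_le' l hd.1
    calc (prog l N d : ℝ) ^ 2 ≤ (C0 * Real.exp (C0 * (Q * (M + sg d))) * R l N) ^ 2 :=
          pow_le_pow_left₀ (Nat.cast_nonneg _) h6 2
      _ = C0 ^ 2 * (Real.exp (C0 * (Q * (M + sg d))) * Real.exp (C0 * (Q * (M + sg d)))) * R l N ^ 2 := by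
          ring
      _ = C0 ^ 2 * (Real.exp (2 * C0 * Q * M) * Real.exp (2 * C0 * Q * sg d)) * R l N ^ 2 := by
          rw [← Real.exp_add, ← Real.exp_add]
          congr 3
          ring
      _ = _ := by ring
  have hC : 0 ≤ C0 ^ 2 * Real.exp (2 * C0 * Q * M) * R l N ^ 2 := by positivity
  calc ∑ d ∈ Icc 1 N, (prog l N d : ℝ) ^ 2 ≤
      ∑ d ∈ Icc 1 N, C0 ^ 2 * Real.exp (2 * C0 * Q * M) * R l N ^ 2 * Real.exp (2 * C0 * Q * sg d) :=
        sum_le_sum h4
    _ = C0 ^ 2 * Real.exp (2 * C0 * Q * M) * R l N ^ 2 * ∑ d ∈ Icc 1 N, Real.exp (2 * C0 * Q * sg d) := by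
        rw [mul_sum]
    _ ≤ C0 ^ 2 * Real.exp (2 * C0 * Q * M) * R l N ^ 2 * (C1 * N) := mul_le_mul_of_nonneg_left h3 hC
    _ = C0 ^ 2 * Real.exp (2 * C0 * Q * M) * C1 * (N * (N / Real.log N ^ (l + 1)) ^ 2) := by
        unfold R
        ring

lemma prog_mono (l : ℕ) {M N : ℕ} (h : M ≤ N) (d : ℕ) : prog l M d ≤ prog l N d := by
  unfold prog
  apply card_le_card
  apply filter_subset_filter
  exact Icc_subset_Icc le_rfl h

/-- second moment method -/
lemma second' (N : ℕ) (f : ℕ → ℝ) (hf : ∀ d, 0 ≤ f d) (R k C : ℝ) (hN : 0 < N) (hR : 0 < R) (hk : 0 < k)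
    (hC : 0 < C) (h1 : k * (N * R) ≤ ∑ d ∈ Icc 1 N, f d) (h2 : ∑ d ∈ Icc 1 N, f d ^ 2 ≤ C * (N * R ^ 2)) :
    k ^ 2 / (4 * C) * N ≤ (((Icc 1 N).filter (fun d => k / 2 * R ≤ f d)).card : ℝ) := by
  set D := (Icc 1 N).filter (fun d => k / 2 * R ≤ f d) with hD
  have hNR : (0 : ℝ) < N := by exact_mod_cast hN
  have hsplit := Finset.sum_filter_add_sum_filter_not (Icc 1 N) (fun d => k / 2 * R ≤ f d) f
  have hsmall : ∑ d ∈ (Icc 1 N).filter (fun d => ¬ k / 2 * R ≤ f d), f d ≤ N * (k / 2 * R) := by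
    calc ∑ d ∈ (Icc 1 N).filter (fun d => ¬ k / 2 * R ≤ f d), f d
        ≤ ∑ d ∈ (Icc 1 N).filter (fun d => ¬ k / 2 * R ≤ f d), (k / 2 * R) := by
          apply Finset.sum_le_sum
          intro d hd
          rw [mem_filter] at hd
          exact (not_le.1 hd.2).le
      _ ≤ ∑ d ∈ Icc 1 N, (k / 2 * R) := by
          apply Finset.sum_le_sum_of_subset_of_nonneg (Finset.filter_subset _ _)
          intro i _ _
          positivity
      _ = N * (k / 2 * R) := by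
          rw [sum_const, Nat.card_Icc, nsmul_eq_mul, Nat.add_sub_cancel]
  have hbig : k / 2 * (N * R) ≤ ∑ d ∈ D, f d := by
    have : ∑ d ∈ D, f d + ∑ d ∈ (Icc 1 N).filter (fun d => ¬ k / 2 * R ≤ f d), f d = ∑ d ∈ Icc 1 N, f d := hsplit
    nlinarith
  have hcs : (∑ d ∈ D, f d) ^ 2 ≤ D.card * ∑ d ∈ D, f d ^ 2 := sq_sum_le_card_mul_sum_sq
  have hle : ∑ d ∈ D, f d ^ 2 ≤ C * (N * R ^ 2) := by
    refine (Finset.sum_le_sum_of_subset_of_nonneg (Finset.filter_subset _ _) ?_).trans h2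
    intro i _ _
    positivity
  have h3 : (k / 2 * (N * R)) ^ 2 ≤ D.card * (C * (N * R ^ 2)) := by
    calc (k / 2 * (N * R)) ^ 2 ≤ (∑ d ∈ D, f d) ^ 2 := pow_le_pow_left₀ (by positivity) hbig 2
      _ ≤ D.card * ∑ d ∈ D, f d ^ 2 := hcs
      _ ≤ D.card * (C * (N * R ^ 2)) := mul_le_mul_of_nonneg_left hle (Nat.cast_nonneg _)
  have h4 : (k / 2 * (N * R)) ^ 2 = (k ^ 2 / (4 * C) * N) * (C * (N * R ^ 2)) := by
    field_simp
    ring
  rw [h4] at h3
  exact le_of_mul_le_mul_right h3 (by positivity)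

theorem thrl (l : ℕ) : S_APl l → S_UPl l → S_THRl l := by
  rintro ⟨k, hk, hA⟩ ⟨C, hC, hU⟩
  have hC0 : 0 < C := by linarith
  obtain ⟨q, hq⟩ : ∃ q, q = min (k / 2) (k ^ 2 / (4 * C)) := ⟨_, rfl⟩
  have hq0 : 0 < q := by rw [hq]; positivity
  have hq1 : q ≤ k / 2 := by rw [hq]; exact min_le_left _ _
  have hq2 : q ≤ k ^ 2 / (4 * C) := by rw [hq]; exact min_le_right _ _
  have h2l : (2 : ℝ) ≤ 2 ^ (l + 1) := by
    calc (2 : ℝ) = 2 ^ 1 := (pow_one 2).symm
      _ ≤ 2 ^ (l + 1) := pow_le_pow_right₀ (by norm_num) (by omega)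
  refine ⟨q / 2 ^ (l + 1), by positivity, ⌈2 / q⌉₊, ?_⟩
  filter_upwards [hA, hU, eventually_ge_atTop 2, eventually_ge_atTop ⌈4 / q ^ 2⌉₊, eventually_ge_atTop (⌈4 / q⌉₊ + 1)]
    with N h1 h2 hN2 hN3 hN4
  have hN2R : (2 : ℝ) ≤ N := by exact_mod_cast hN2
  have hN3R : 4 / q ^ 2 ≤ N := (Nat.le_ceil _).trans (by exact_mod_cast hN3)
  have hN4R : 4 / q + 1 ≤ N := by
    have h := Nat.le_ceil (4 / q)
    have h' : ((⌈4 / q⌉₊ + 1 : ℕ) : ℝ) ≤ N := by exact_mod_cast hN4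
    push_cast at h'
    linarith
  have hlog : 0 < Real.log N := Real.log_pos (by linarith)
  set R : ℝ := N / Real.log N ^ (l + 1) with hR
  have hR0 : 0 < R := by positivity
  have hsec := second' N (fun d => (prog l N d : ℝ)) (fun d => Nat.cast_nonneg _) R k C (by omega) hR0 hk hC0 h1 h2
  -- the small differences
  have hT : (((Icc 1 N).filter (fun d : ℕ => (d : ℝ) ≤ q / 2 * N)).card : ℝ) ≤ q / 2 * N := by
    have hsub : (Icc 1 N).filter (fun d : ℕ => (d : ℝ) ≤ q / 2 * N) ⊆ Icc 1 ⌊q / 2 * N⌋₊ := by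
      intro d hd
      rw [mem_filter, mem_Icc] at hd
      rw [mem_Icc]
      exact ⟨hd.1.1, Nat.le_floor hd.2⟩
    have h3 := card_le_card hsub
    rw [Nat.card_Icc, Nat.add_sub_cancel] at h3
    exact (Nat.cast_le.2 h3).trans (Nat.floor_le (by positivity))
  have hsub : (Icc 1 N).filter (fun d => k / 2 * R ≤ (prog l N d : ℝ)) ⊆
      (Icc 1 N).filter (fun d : ℕ => 2 ≤ d ∧ q / 2 ^ (l + 1) * (d / Real.log d ^ (l + 1)) ≤
        prog l (⌈2 / q⌉₊ * d) d) ∪
        (Icc 1 N).filter (fun d : ℕ => (d : ℝ) ≤ q / 2 * N) := by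
    intro d hd
    rw [mem_filter] at hd
    obtain ⟨hd1, hd2⟩ := hd
    rw [mem_union, mem_filter, mem_filter]
    by_cases h3 : (d : ℝ) ≤ q / 2 * N
    · exact Or.inr ⟨hd1, h3⟩
    · left
      rw [not_le] at h3
      have h4 : (2 : ℝ) < q / 2 * N := by
        have h5 : 4 / q < N := by linarith
        rw [div_lt_iff₀ hq0] at h5
        linarith
      have h6 : (2 : ℝ) < d := h4.trans h3
      have h7 : 2 ≤ d := by exact_mod_cast h6.le
      refine ⟨hd1, h7, ?_⟩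
      have hN_le : N ≤ ⌈2 / q⌉₊ * d := by
        have h8 : (N : ℝ) ≤ 2 / q * d := by
          rw [div_mul_eq_mul_div, le_div_iff₀ hq0]
          linarith
        have h9 : (2 / q * d : ℝ) ≤ ⌈2 / q⌉₊ * d := mul_le_mul_of_nonneg_right (Nat.le_ceil _) (Nat.cast_nonneg _)
        exact_mod_cast h8.trans h9
      have h10 : (prog l N d : ℝ) ≤ prog l (⌈2 / q⌉₊ * d) d := by exact_mod_cast prog_mono l hN_le d
      have hlogd : 0 < Real.log d := Real.log_pos (by linarith)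
      have h11 : Real.log N ≤ 2 * Real.log d := by
        have h12 : (N : ℝ) ≤ (d : ℝ) ^ 2 := by
          have h13 : 4 ≤ q ^ 2 * N := by
            rw [div_le_iff₀ (by positivity)] at hN3R
            linarith
          have h14 : (q / 2 * N) ^ 2 ≤ (d : ℝ) ^ 2 := pow_le_pow_left₀ (by positivity) h3.le 2
          have h15 : (N : ℝ) ≤ (q / 2 * N) ^ 2 := by nlinarith
          exact h15.trans h14
        have h13 := Real.log_le_log (by linarith) h12
        rw [Real.log_pow] at h13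
        push_cast at h13
        exact h13
      have h12 : Real.log N ^ (l + 1) ≤ 2 ^ (l + 1) * Real.log d ^ (l + 1) := by
        calc Real.log N ^ (l + 1) ≤ (2 * Real.log d) ^ (l + 1) := pow_le_pow_left₀ hlog.le h11 _
          _ = 2 ^ (l + 1) * Real.log d ^ (l + 1) := by rw [mul_pow]
      have hdN : (d : ℝ) ≤ N := by
        rw [mem_Icc] at hd1
        exact_mod_cast hd1.2
      have h13 : q / 2 ^ (l + 1) * (d / Real.log d ^ (l + 1)) ≤ k / 2 * R := by
        calc q / 2 ^ (l + 1) * (d / Real.log d ^ (l + 1)) =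
              q * (d / (2 ^ (l + 1) * Real.log d ^ (l + 1))) := by field_simp
          _ ≤ q * (N / Real.log N ^ (l + 1)) := by
              apply mul_le_mul_of_nonneg_left _ hq0.le
              exact div_le_div₀ (by linarith) hdN (by positivity) h12
          _ ≤ k / 2 * R := mul_le_mul_of_nonneg_right hq1 hR0.le
      exact h13.trans (hd2.trans h10)
  have hcard := card_le_card hsub
  have hcard2 := hcard.trans (card_union_le _ _)
  have hcard3 : (((Icc 1 N).filter (fun d => k / 2 * R ≤ (prog l N d : ℝ))).card : ℝ) ≤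
      (((Icc 1 N).filter (fun d : ℕ => 2 ≤ d ∧ q / 2 ^ (l + 1) * (d / Real.log d ^ (l + 1)) ≤
        prog l (⌈2 / q⌉₊ * d) d)).card : ℝ) +
        (((Icc 1 N).filter (fun d : ℕ => (d : ℝ) ≤ q / 2 * N)).card : ℝ) := by
    exact_mod_cast hcard2
  have h20 : q * N ≤ k ^ 2 / (4 * C) * N := mul_le_mul_of_nonneg_right hq2 (by positivity)
  have h21 : q / 2 ^ (l + 1) * N ≤ q / 2 * N := by
    apply mul_le_mul_of_nonneg_right _ (by positivity)
    exact div_le_div_of_nonneg_left hq0.le (by norm_num) h2l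
  linarith

theorem ap_two (h : S_AP) : S_APl 2 := by
  obtain ⟨κ, hκ, h1⟩ := h
  refine ⟨κ, hκ, h1.mono fun N hN => hN.trans (le_of_eq ?_)⟩
  refine sum_congr rfl fun d _ => ?_
  congr 1
  unfold tri prog
  congr 1
  apply filter_congr
  intro m _
  constructor
  · rintro ⟨h1, h2, h3⟩ j hj
    rw [mem_range] at hj
    interval_cases j
    · simpa using h1
    · simpa using h2
    · exact h3
  · intro h
    exact ⟨by simpa using h 0 (by simp), by simpa using h 1 (by simp), h 2 (by simp)⟩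

end Pool.Agent.P8H97.FE
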