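import Pool.Agent.P8H97.FE.Res
import Pool.Agent.P8H97.FE.FinL

/-! # Project FE: `n` in an arbitrary infinite set (helper97) -/

set_option autoImplicit false

namespace Pool.Agent.P8H97.FE

open Finset Filter MeasureTheory Topology

/-- the density theorem for the upper limit of sets which have a positive proportion of small cubes -/
theorem den_inf (l : ℕ) (G : ℕ → Set (Fin l → ℝ)) (hG : ∀ n, MeasurableSet (G n))
    (Ω : Set (Fin l → ℝ))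
    (hΩ : ∀ x ∈ Ω, ∃ w : ℝ, 0 < w ∧ ∃ δ : ℝ, 0 < δ ∧ ∀ᶠ n : ℕ in atTop,
      δ * (2 * (w / Real.log n)) ^ l ≤ volume.real (G n ∩ Metric.closedBall x (w / Real.log n)))
    (T : Set ℕ) (hT : T.Infinite) :
    ∀ᵐ x ∂(volume : Measure (Fin l → ℝ)), x ∈ Ω → ∃ᶠ n : ℕ in atTop, n ∈ T ∧ x ∈ G n := by
  classical
  have hAm : ∀ K : ℕ, MeasurableSet {x : Fin l → ℝ | ∀ n, K ≤ n → n ∈ T → x ∉ G n} := by
    intro K
    have h : {x : Fin l → ℝ | ∀ n, K ≤ n → n ∈ T → x ∉ G n} =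
        ⋂ n : ℕ, ⋂ _ : K ≤ n, ⋂ _ : n ∈ T, (G n)ᶜ := by
      ext x
      simp only [Set.mem_iInter]
      rfl
    rw [h]
    exact MeasurableSet.iInter fun n => MeasurableSet.iInter fun _ => MeasurableSet.iInter fun _ =>
      (hG n).compl
  have hbes : ∀ᵐ x ∂(volume : Measure (Fin l → ℝ)), ∀ K : ℕ,
      x ∈ {x : Fin l → ℝ | ∀ n, K ≤ n → n ∈ T → x ∉ G n} →
      Tendsto (fun r => volume ({x : Fin l → ℝ | ∀ n, K ≤ n → n ∈ T → x ∉ G n} ∩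
        Metric.closedBall x r) / volume (Metric.closedBall x r)) (𝓝[>] 0) (𝓝 1) := by
    rw [ae_all_iff]
    intro K
    exact ae_imp_of_ae_restrict (Besicovitch.ae_tendsto_measure_inter_div volume _)
  filter_upwards [hbes] with x hx hxΩ
  obtain ⟨w, hw, δ, hδ, hev⟩ := hΩ x hxΩ
  by_contra hcon
  rw [not_frequently] at hcon
  obtain ⟨K, hK⟩ := eventually_atTop.1 hcon
  have hxA : x ∈ {x : Fin l → ℝ | ∀ n, K ≤ n → n ∈ T → x ∉ G n} := fun n hn hnT hxn =>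
    hK n hn ⟨hnT, hxn⟩
  have hlim := hx K hxA
  obtain ⟨A, hA⟩ : ∃ A, A = {x : Fin l → ℝ | ∀ n, K ≤ n → n ∈ T → x ∉ G n} := ⟨_, rfl⟩
  rw [← hA] at hlim
  have hlim2 := (ENNReal.tendsto_toReal ENNReal.one_ne_top).comp hlim
  have hr : Tendsto (fun X : ℕ => w / Real.log X) atTop (𝓝[>] 0) := by
    rw [tendsto_nhdsWithin_iff]
    constructor
    · exact (Tendsto.div_atTop tendsto_const_nhds
        (Real.tendsto_log_atTop.comp tendsto_natCast_atTop_atTop))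
    · filter_upwards [eventually_ge_atTop 2] with X hX
      have : 0 < Real.log X := Real.log_pos (by exact_mod_cast hX)
      exact div_pos (by positivity) this
  have hlim3 := hlim2.comp hr
  have hev2 := hlim3.eventually (lt_mem_nhds (show (1 - δ : ℝ) < (1 : ENNReal).toReal by
    rw [ENNReal.toReal_one]; linarith))
  obtain ⟨n, hnT, h1, h2, h3, h4⟩ := ((Nat.frequently_atTop_iff_infinite.2 hT).and_eventually
    (hev2.and (hev.and ((eventually_ge_atTop 2).and (eventually_ge_atTop K))))).exists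
  have hlogn : 0 < Real.log n := Real.log_pos (by exact_mod_cast (show 1 < n by omega))
  obtain ⟨r, hrdef⟩ : ∃ r : ℝ, r = w / Real.log n := ⟨_, rfl⟩
  have hr0 : 0 < r := by rw [hrdef]; positivity
  simp only [Function.comp_apply] at h1
  rw [← hrdef, ENNReal.toReal_div] at h1
  rw [← hrdef] at h2
  have hBvol : (volume (Metric.closedBall x r)).toReal = (2 * r) ^ l := by
    rw [Real.volume_pi_closedBall _ hr0.le, Fintype.card_fin,
      ENNReal.toReal_ofReal (by positivity)]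
  have hBfin : volume (Metric.closedBall x r) ≠ ⊤ := by
    rw [Real.volume_pi_closedBall _ hr0.le]
    exact ENNReal.ofReal_ne_top
  obtain ⟨V, hV⟩ : ∃ V : ℝ, V = (2 * r) ^ l := ⟨_, rfl⟩
  have hV0 : 0 < V := by rw [hV]; positivity
  rw [hBvol, ← hV, lt_div_iff₀ hV0] at h1
  rw [← hV] at h2
  obtain ⟨B, hB⟩ : ∃ B : Set (Fin l → ℝ), B = Metric.closedBall x r := ⟨_, rfl⟩
  rw [← hB] at h1 h2 hBvol hBfin
  have hBr : volume.real B = V := by rw [hV]; exact hBvol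
  have hAB : (1 - δ) * V < volume.real (A ∩ B) := h1
  have hdisj : Disjoint (A ∩ B) (G n ∩ B) := by
    rw [Set.disjoint_left]
    rintro y ⟨hyA, _⟩ ⟨hyG, _⟩
    rw [hA] at hyA
    exact hyA n h4 hnT hyG
  have hAB2 : volume (A ∩ B) ≠ ⊤ := ne_top_of_le_ne_top hBfin (measure_mono Set.inter_subset_right)
  have hGB2 : volume (G n ∩ B) ≠ ⊤ := ne_top_of_le_ne_top hBfin (measure_mono Set.inter_subset_right)
  have hBm : MeasurableSet B := by rw [hB]; exact measurableSet_closedBall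
  have hun : volume.real (A ∩ B) + volume.real (G n ∩ B) ≤ volume.real B := by
    rw [← measureReal_union hdisj ((hG n).inter hBm) hAB2 hGB2]
    exact measureReal_mono (Set.union_subset Set.inter_subset_right Set.inter_subset_right) hBfin
  rw [hBr] at hun
  nlinarith

open Classical in
/-- the assembly for the exponents between `1 / (k + 1)` and `A` -/
theorem main_inf (hP : S_POS) (hB : S_BOX) (T' : Set ℕ) (hT' : T'.Infinite) (l : ℕ) (hl : 0 < l)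
    (A : ℝ) (hA : 0 < A) (k : ℕ) :
    ∀ᵐ c : Fin l → ℝ, (∀ i, 1 / ((k : ℝ) + 1) < c i ∧ c i < A) → ∃ κ : ℝ, 0 < κ ∧
      ∃ᶠ n : ℕ in atTop, n ∈ T' ∧ κ * R l ⌊(n : ℝ) ^ A⌋₊ ≤ cnt ⌊(n : ℝ) ^ A⌋₊ (sh n c) := by
  obtain ⟨κ, hκ, hpos⟩ := hP l (1 / (2 * ((k : ℝ) + 1) * A)) (by positivity)
  set T : ℕ → Set (Fin l → ℕ) := fun n => {h | κ * R l ⌊(n : ℝ) ^ A⌋₊ ≤ cnt ⌊(n : ℝ) ^ A⌋₊ h} with hT
  have hNt : Tendsto (fun n : ℕ => ⌊(n : ℝ) ^ A⌋₊) atTop atTop :=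
    tendsto_nat_floor_atTop.comp ((tendsto_rpow_atTop hA).comp tendsto_natCast_atTop_atTop)
  have h1 := den_inf l (fun n => {c : Fin l → ℝ | sh n c ∈ T n}) (fun n => G_meas n (T n))
    {x | ∀ i, 1 / ((k : ℝ) + 1) < x i ∧ x i < A} (by
      intro x hx
      have hx0 : ∀ i, 0 < x i := fun i => lt_trans (by positivity) (hx i).1
      have hk : (0 : ℝ) < (k : ℝ) + 1 := by positivity
      refine hB l hl x hx0 κ hκ T fun w hw => ?_
      have h2 : ∀ i, ∀ᶠ n : ℕ in atTop, ((⌊(n : ℝ) ^ A⌋₊ : ℕ) : ℝ) ^ (1 / (2 * ((k : ℝ) + 1) * A)) ≤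
          (⌊Real.exp w * (n : ℝ) ^ (x i)⌋₊ : ℝ) ∧
          (⌊Real.exp w * (n : ℝ) ^ (x i)⌋₊ : ℝ) ≤ (⌊(n : ℝ) ^ A⌋₊ : ℕ) := by
        intro i
        refine range_ok hA (hx0 i) (hx i).2 (by positivity) ?_
        have e1 : A * (1 / (2 * ((k : ℝ) + 1) * A)) = 1 / ((k : ℝ) + 1) / 2 := by
          field_simp
        rw [e1]
        have h3 := (hx i).1
        have h4 : 0 < 1 / ((k : ℝ) + 1) := by positivity
        linarith
      filter_upwards [eventually_all.2 h2, hNt.eventually hpos] with n hn1 hn2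
      have h5 := hn2 (fun i => ⌊Real.exp w * (n : ℝ) ^ (x i)⌋₊)
        (fun i => ⟨(hn1 i).1, by exact_mod_cast (hn1 i).2⟩)
      refine h5.trans (le_of_eq ?_)
      congr 2) T' hT'
  filter_upwards [h1] with c hc hcA
  exact ⟨κ, hκ, hc hcA⟩

/-- the quantitative form for an infinite set -/
theorem part_inf (hP : S_POS) (hB : S_BOX) (T' : Set ℕ) (hT' : T'.Infinite) (l : ℕ) (hl : 0 < l) (A : ℝ) :
    ∀ᵐ c : Fin l → ℝ, (∀ i, 0 < c i ∧ c i < A) → ∃ κ : ℝ, 0 < κ ∧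
      ∃ᶠ n : ℕ in atTop, n ∈ T' ∧ κ * ((n : ℝ) ^ A / Real.log n ^ (l + 1)) ≤ count A c n := by
  rcases le_or_gt A 0 with hA | hA
  · refine ae_of_all _ fun c hc => ?_
    have := hc ⟨0, hl⟩
    linarith [this.1, this.2]
  filter_upwards [ae_all_iff.2 fun k => main_inf hP hB T' hT' l hl A hA k] with c hc hcA
  obtain ⟨k, hk⟩ : ∃ k : ℕ, ∀ i, 1 / ((k : ℝ) + 1) < c i := by
    have h1 : ∀ i, ∃ k : ℕ, 1 / ((k : ℝ) + 1) < c i := fun i => exists_nat_one_div_lt (hcA i).1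
    choose f hf using h1
    refine ⟨univ.sup f, fun i => lt_of_le_of_lt ?_ (hf i)⟩
    have h2 : f i ≤ univ.sup f := Finset.le_sup (mem_univ i)
    have h3 : (f i : ℝ) ≤ (univ.sup f : ℕ) := by exact_mod_cast h2
    apply one_div_le_one_div_of_le (by positivity)
    linarith
  obtain ⟨κ, hκ, h2⟩ := hc k fun i => ⟨hk i, (hcA i).2⟩
  refine ⟨κ * (1 / (2 * A ^ (l + 1))), by positivity, (h2.and_eventually (R_ge l hA)).mono ?_⟩
  rintro n ⟨⟨hnT, h3⟩, h4⟩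
  refine ⟨hnT, ?_⟩
  rw [count_eq]
  refine le_trans ?_ h3
  rw [mul_assoc]
  exact mul_le_mul_of_nonneg_left h4 hκ.le

theorem lit_inf (hP : S_POS) (hB : S_BOX) (T' : Set ℕ) (hT' : T'.Infinite) (l : ℕ) (hl : 0 < l) :
    ∀ᵐ c : Fin l → ℝ, (∀ i, 0 < c i) → ∀ N : ℕ, ∃ m n : ℕ, N ≤ n ∧ n ∈ T' ∧ m.Prime ∧
      ∀ i, (m + ⌊(n : ℝ) ^ (c i)⌋₊).Prime := by
  filter_upwards [ae_all_iff.2 fun k : ℕ => part_inf hP hB T' hT' l hl (k : ℝ)] with c hc hc0 N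
  obtain ⟨k, hk⟩ : ∃ k : ℕ, ∀ i, c i < k := by
    have h1 : ∀ i, ∃ k : ℕ, c i < k := fun i => exists_nat_gt (c i)
    choose f hf using h1
    refine ⟨univ.sup f, fun i => lt_of_lt_of_le (hf i) ?_⟩
    exact_mod_cast Finset.le_sup (f := f) (mem_univ i)
  obtain ⟨κ, hκ, h⟩ := hc k fun i => ⟨hc0 i, hk i⟩
  obtain ⟨n, ⟨hnT, h1⟩, hn⟩ := (h.and_eventually (eventually_ge_atTop (N + 2))).exists
  have hn1 : (1 : ℝ) < n := by
    have : 1 < n := by omega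
    exact_mod_cast this
  have h5 : 0 < κ * ((n : ℝ) ^ (k : ℝ) / Real.log n ^ (l + 1)) := by
    have : 0 < Real.log (n : ℝ) := Real.log_pos hn1
    positivity
  have h6 : 0 < count (k : ℝ) c n := by
    have : (0 : ℝ) < count (k : ℝ) c n := lt_of_lt_of_le h5 h1
    exact_mod_cast this
  obtain ⟨m, hm⟩ := Set.nonempty_of_ncard_ne_zero h6.ne'
  exact ⟨m, n, by omega, hnT, hm.2.1, hm.2.2⟩

/-! ## Progressions -/

theorem prog_inf (l : ℕ) (hT : S_THRl l) (hB : S_BOX) :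
    ∃ κ : ℝ, 0 < κ ∧ ∃ K : ℕ, ∀ T' : Set ℕ, T'.Infinite → ∀ᵐ c : Fin 1 → ℝ, (∀ i, 0 < c i) →
      ∃ᶠ n : ℕ in atTop, n ∈ T' ∧ gdl l κ K (sh n c 0) := by
  classical
  obtain ⟨κ, hκ, K, hthr⟩ := hT
  refine ⟨κ, hκ, K, fun T' hT' => ?_⟩
  set T : Set (Fin 1 → ℕ) := {h | gdl l κ K (h 0)} with hTd
  have h1 := den_inf 1 (fun n => {c : Fin 1 → ℝ | sh n c ∈ T}) (fun n => G_meas n T) {x | ∀ i, 0 < x i} (by
    intro x hx
    refine hB 1 one_pos x hx κ hκ (fun _ => T) fun w hw => ?_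
    have h2 : Tendsto (fun n : ℕ => ⌊Real.exp w * (n : ℝ) ^ (x 0)⌋₊) atTop atTop :=
      tendsto_nat_floor_atTop.comp (((tendsto_rpow_atTop (hx 0)).comp
        tendsto_natCast_atTop_atTop).const_mul_atTop (Real.exp_pos w))
    filter_upwards [h2.eventually hthr] with n hn
    rw [Fin.prod_univ_one]
    refine hn.trans ?_
    have h3 : ((Icc 1 ⌊Real.exp w * (n : ℝ) ^ (x 0)⌋₊).filter (fun d : ℕ => 2 ≤ d ∧
        κ * (d / Real.log d ^ (l + 1)) ≤ prog l (K * d) d)).card ≤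
        ((box (fun i => ⌊Real.exp w * (n : ℝ) ^ (x i)⌋₊)).filter (fun h => h ∈ T)).card := by
      refine card_le_card_of_injOn (fun d _ => d) (fun d hd => ?_) (fun a _ b _ hab => congrFun hab 0)
      rw [Finset.mem_coe, mem_filter] at hd
      rw [Finset.mem_coe, mem_filter, Fintype.mem_piFinset]
      refine ⟨fun i => ?_, hd.2⟩
      rw [Subsingleton.elim i 0]
      exact hd.1
    refine (Nat.cast_le.2 h3).trans (le_of_eq ?_)
    congr 2) T' hT'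
  filter_upwards [h1] with c hc hc0
  exact hc hc0

theorem prog_inf2 (l : ℕ) (hT : S_THRl l) (hB : S_BOX) :
    ∃ K : ℝ, 0 < K ∧ ∀ T' : Set ℕ, T'.Infinite → ∀ᵐ c : ℝ, 0 < c → ∃ κ : ℝ, 0 < κ ∧
      ∃ᶠ n : ℕ in atTop, n ∈ T' ∧ κ * ((n : ℝ) ^ c / Real.log n ^ (l + 1)) ≤ countl l K c n := by
  obtain ⟨κ, hκ, K0, h0⟩ := prog_inf l hT hB
  obtain ⟨K, hK⟩ : ∃ K, K = K0 + 1 := ⟨_, rfl⟩
  refine ⟨(K : ℕ), by rw [hK]; positivity, fun T' hT' => ?_⟩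
  have h1 : ∀ᵐ c : ℝ, (∀ i : Fin 1, 0 < (fun _ : Fin 1 => c) i) →
      ∃ᶠ n : ℕ in atTop, n ∈ T' ∧ gdl l κ K0 (sh n (fun _ : Fin 1 => c) 0) :=
    (MeasurePreserving.symm _ (volume_preserving_funUnique (Fin 1) ℝ)).quasiMeasurePreserving.ae
      (h0 T' hT')
  filter_upwards [h1] with c hc hc0
  refine ⟨κ * (1 / (2 * c ^ (l + 1))), by positivity,
    ((hc fun _ => hc0).and_eventually (floor_gel l hc0)).mono ?_⟩
  rintro n ⟨⟨hnT, h2⟩, h6⟩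
  refine ⟨hnT, ?_⟩
  have h8 : κ * ((⌊(n : ℝ) ^ c⌋₊ : ℝ) / Real.log ⌊(n : ℝ) ^ c⌋₊ ^ (l + 1)) ≤
      (prog l (K0 * ⌊(n : ℝ) ^ c⌋₊) ⌊(n : ℝ) ^ c⌋₊ : ℝ) := h2.2
  have h9 : (prog l (K0 * ⌊(n : ℝ) ^ c⌋₊) ⌊(n : ℝ) ^ c⌋₊ : ℝ) ≤ countl l (K : ℕ) c n := by
    have h10 : prog l (K0 * ⌊(n : ℝ) ^ c⌋₊) ⌊(n : ℝ) ^ c⌋₊ ≤
        prog l (K * ⌊(n : ℝ) ^ c⌋₊) ⌊(n : ℝ) ^ c⌋₊ := by
      refine prog_mono l (Nat.mul_le_mul_right _ (by omega)) _
    exact_mod_cast h10.trans (prog_le_countl l K c n)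
  rw [mul_assoc]
  exact (mul_le_mul_of_nonneg_left h6 hκ.le).trans (h8.trans h9)

theorem prog_lit_inf {l : ℕ} {K c κ : ℝ} {T' : Set ℕ} (hκ : 0 < κ)
    (h : ∃ᶠ n : ℕ in atTop, n ∈ T' ∧ κ * ((n : ℝ) ^ c / Real.log n ^ (l + 1)) ≤ countl l K c n) (N : ℕ) :
    ∃ m n : ℕ, N ≤ n ∧ n ∈ T' ∧ ∀ j ≤ l, (m + j * ⌊(n : ℝ) ^ c⌋₊).Prime := by
  obtain ⟨n, ⟨hnT, h1⟩, hn⟩ := (h.and_eventually (eventually_ge_atTop (N + 2))).exists
  have hn1 : (1 : ℝ) < n := by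
    have : 1 < n := by omega
    exact_mod_cast this
  have h5 : 0 < κ * ((n : ℝ) ^ c / Real.log n ^ (l + 1)) := by
    have : 0 < Real.log (n : ℝ) := Real.log_pos hn1
    positivity
  have h6 : 0 < countl l K c n := by
    have : (0 : ℝ) < countl l K c n := lt_of_lt_of_le h5 h1
    exact_mod_cast this
  obtain ⟨m, hm⟩ := Set.nonempty_of_ncard_ne_zero h6.ne'
  exact ⟨m, n, by omega, hnT, hm.2⟩

end Pool.Agent.P8H97.FE
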