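import Pool.Agent.P8H97.FE.Fin

/-! # Project FE: the final form (helper97) -/

set_option autoImplicit false

namespace Pool.Agent.P8H97.FE

open Finset Filter MeasureTheory Topology

/-- the number of the primes `m ≤ n ^ A` for which all `m + ⌊n ^ (c i)⌋` are prime -/
noncomputable def count {l : ℕ} (A : ℝ) (c : Fin l → ℝ) (n : ℕ) : ℕ :=
  {m : ℕ | (m : ℝ) ≤ (n : ℝ) ^ A ∧ m.Prime ∧ ∀ i, (m + ⌊(n : ℝ) ^ (c i)⌋₊).Prime}.ncard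

lemma count_eq {l : ℕ} (A : ℝ) (c : Fin l → ℝ) (n : ℕ) :
    count A c n = cnt ⌊(n : ℝ) ^ A⌋₊ (sh n c) := by
  classical
  unfold count cnt
  rw [← Set.ncard_coe_finset]
  congr 1
  ext m
  rw [Finset.mem_coe, Finset.mem_filter, Finset.mem_Icc]
  constructor
  · rintro ⟨h1, h2, h3⟩
    exact ⟨⟨h2.one_lt.le, Nat.le_floor h1⟩, h2, h3⟩
  · rintro ⟨⟨h0, h1⟩, h2, h3⟩
    exact ⟨(Nat.le_floor_iff (by positivity)).1 h1, h2, h3⟩

lemma R_ge (l : ℕ) {A : ℝ} (hA : 0 < A) : ∀ᶠ n : ℕ in atTop,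
    (1 / (2 * A ^ (l + 1))) * ((n : ℝ) ^ A / Real.log n ^ (l + 1)) ≤ R l ⌊(n : ℝ) ^ A⌋₊ := by
  have hcast : Tendsto (fun n : ℕ => (n : ℝ)) atTop atTop := tendsto_natCast_atTop_atTop
  have h1 : Tendsto (fun n : ℕ => (n : ℝ) ^ A) atTop atTop := (tendsto_rpow_atTop hA).comp hcast
  filter_upwards [h1.eventually_ge_atTop 3, eventually_ge_atTop 2] with n hn1 hn2
  have hn : (1 : ℝ) < n := by exact_mod_cast hn2
  have hlog : 0 < Real.log n := Real.log_pos hn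
  obtain ⟨N, hN⟩ : ∃ N, N = ⌊(n : ℝ) ^ A⌋₊ := ⟨_, rfl⟩
  rw [← hN]
  have h2 : (N : ℝ) ≤ (n : ℝ) ^ A := by rw [hN]; exact Nat.floor_le (by positivity)
  have h3 : (n : ℝ) ^ A < N + 1 := by rw [hN]; exact Nat.lt_floor_add_one _
  have h4 : (n : ℝ) ^ A / 2 ≤ N := by linarith
  have h5 : (1 : ℝ) < N := by linarith
  have h6 : 0 < Real.log N := Real.log_pos h5
  have h7 : Real.log N ≤ A * Real.log n := by
    rw [← Real.log_rpow (by linarith)]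
    exact Real.log_le_log (by linarith) h2
  unfold R
  calc (1 / (2 * A ^ (l + 1))) * ((n : ℝ) ^ A / Real.log n ^ (l + 1)) =
        ((n : ℝ) ^ A / 2) / (A * Real.log n) ^ (l + 1) := by
        rw [mul_pow]; field_simp
    _ ≤ (N : ℝ) / (A * Real.log n) ^ (l + 1) := by gcongr
    _ ≤ (N : ℝ) / Real.log N ^ (l + 1) := by gcongr

open Classical in
theorem part1 (hP : S_POS) (hB : S_BOX) (hD : S_DEN) (l : ℕ) (hl : 0 < l) (A : ℝ) :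
    ∀ᵐ c : Fin l → ℝ, (∀ i, 0 < c i ∧ c i < A) → ∃ κ : ℝ, 0 < κ ∧ ∃ᶠ X : ℕ in atTop,
      κ * X ≤ ({n : ℕ | 1 ≤ n ∧ n ≤ X ∧ κ * ((n : ℝ) ^ A / Real.log n ^ (l + 1)) ≤ count A c n}.ncard : ℝ) := by
  rcases le_or_gt A 0 with hA | hA
  · refine ae_of_all _ fun c hc => ?_
    have := hc ⟨0, hl⟩
    linarith [this.1, this.2]
  filter_upwards [ae_all_iff.2 fun k => main_k hP hB hD l hl A hA k] with c hc hcA
  -- a lower bound for all the exponents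
  obtain ⟨k, hk⟩ : ∃ k : ℕ, ∀ i, 1 / ((k : ℝ) + 1) < c i := by
    have h1 : ∀ i, ∃ k : ℕ, 1 / ((k : ℝ) + 1) < c i := fun i => exists_nat_one_div_lt (hcA i).1
    choose f hf using h1
    refine ⟨univ.sup f, fun i => lt_of_le_of_lt ?_ (hf i)⟩
    have h2 : f i ≤ univ.sup f := Finset.le_sup (mem_univ i)
    have h3 : (f i : ℝ) ≤ (univ.sup f : ℕ) := by exact_mod_cast h2
    apply one_div_le_one_div_of_le (by positivity)
    linarith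
  obtain ⟨κ, hκ, δ, hδ, h2⟩ := hc k fun i => ⟨hk i, (hcA i).2⟩
  obtain ⟨n₀, hn₀⟩ := eventually_atTop.1 (R_ge l hA)
  obtain ⟨κ', hκ'⟩ : ∃ κ', κ' = min (δ / 2) (κ * (1 / (2 * A ^ (l + 1)))) := ⟨_, rfl⟩
  have hκ'0 : 0 < κ' := by rw [hκ']; exact lt_min (by positivity) (by positivity)
  have hκ'1 : κ' ≤ δ / 2 := by rw [hκ']; exact min_le_left _ _
  have hκ'2 : κ' ≤ κ * (1 / (2 * A ^ (l + 1))) := by rw [hκ']; exact min_le_right _ _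
  refine ⟨κ', hκ'0, ?_⟩
  have h3 : ∀ᶠ X : ℕ in atTop, (n₀ : ℝ) ≤ δ / 2 * X := by
    have : Tendsto (fun X : ℕ => δ / 2 * (X : ℝ)) atTop atTop :=
      tendsto_natCast_atTop_atTop.const_mul_atTop (by positivity)
    exact this.eventually_ge_atTop _
  refine (h2.and_eventually h3).mono ?_
  rintro X ⟨hX1, hX2⟩
  have hfin : {n : ℕ | 1 ≤ n ∧ n ≤ X ∧ κ' * ((n : ℝ) ^ A / Real.log n ^ (l + 1)) ≤ count A c n}.Finite :=
    (Set.finite_Icc 1 X).subset fun n hn => ⟨hn.1, hn.2.1⟩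
  have h4 : ((Icc 1 X).filter (fun n : ℕ => κ * R l ⌊(n : ℝ) ^ A⌋₊ ≤ cnt ⌊(n : ℝ) ^ A⌋₊ (sh n c))).card ≤
      n₀ + {n : ℕ | 1 ≤ n ∧ n ≤ X ∧ κ' * ((n : ℝ) ^ A / Real.log n ^ (l + 1)) ≤ count A c n}.ncard := by
    rw [Set.ncard_eq_toFinset_card _ hfin]
    refine (card_le_card (t := range n₀ ∪ hfin.toFinset) ?_).trans
      ((card_union_le _ _).trans (by rw [card_range]))
    intro n hn
    rw [mem_filter, mem_Icc] at hn
    rw [mem_union, mem_range, Set.Finite.mem_toFinset]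
    rcases Nat.lt_or_ge n n₀ with h5 | h5
    · exact Or.inl h5
    right
    refine ⟨hn.1.1, hn.1.2, ?_⟩
    rw [count_eq]
    refine le_trans ?_ hn.2
    have h6 := hn₀ n h5
    have h7 : 0 ≤ (n : ℝ) ^ A / Real.log n ^ (l + 1) := by
      have : 0 ≤ Real.log (n : ℝ) := Real.log_natCast_nonneg n
      positivity
    calc κ' * ((n : ℝ) ^ A / Real.log n ^ (l + 1)) ≤
          κ * (1 / (2 * A ^ (l + 1))) * ((n : ℝ) ^ A / Real.log n ^ (l + 1)) :=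
          mul_le_mul_of_nonneg_right hκ'2 h7
      _ = κ * ((1 / (2 * A ^ (l + 1))) * ((n : ℝ) ^ A / Real.log n ^ (l + 1))) := by ring
      _ ≤ κ * R l ⌊(n : ℝ) ^ A⌋₊ := mul_le_mul_of_nonneg_left h6 hκ.le
  have h8 : (((Icc 1 X).filter (fun n : ℕ =>
      κ * R l ⌊(n : ℝ) ^ A⌋₊ ≤ cnt ⌊(n : ℝ) ^ A⌋₊ (sh n c))).card : ℝ) ≤
      n₀ + ({n : ℕ | 1 ≤ n ∧ n ≤ X ∧ κ' * ((n : ℝ) ^ A / Real.log n ^ (l + 1)) ≤ count A c n}.ncard : ℝ) := by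
    exact_mod_cast h4
  have h9 : κ' * (X : ℝ) ≤ δ / 2 * X := mul_le_mul_of_nonneg_right hκ'1 (Nat.cast_nonneg _)
  linarith

theorem part2 {l : ℕ} {A κ : ℝ} {c : Fin l → ℝ} (hκ : 0 < κ)
    (h : ∃ᶠ X : ℕ in atTop, κ * X ≤
      ({n : ℕ | 1 ≤ n ∧ n ≤ X ∧ κ * ((n : ℝ) ^ A / Real.log n ^ (l + 1)) ≤ count A c n}.ncard : ℝ)) (N : ℕ) :
    ∃ m n : ℕ, N ≤ n ∧ m.Prime ∧ ∀ i, (m + ⌊(n : ℝ) ^ (c i)⌋₊).Prime := by
  have h3 : ∀ᶠ X : ℕ in atTop, ((N + 2 : ℕ) : ℝ) < κ * X := by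
    have : Tendsto (fun X : ℕ => κ * (X : ℝ)) atTop atTop :=
      tendsto_natCast_atTop_atTop.const_mul_atTop hκ
    exact this.eventually_gt_atTop _
  obtain ⟨X, hX1, hX2⟩ := (h.and_eventually h3).exists
  have h4 : ∃ n : ℕ, N + 2 ≤ n ∧ κ * ((n : ℝ) ^ A / Real.log n ^ (l + 1)) ≤ count A c n := by
    by_contra hcon
    have h5 : {n : ℕ | 1 ≤ n ∧ n ≤ X ∧ κ * ((n : ℝ) ^ A / Real.log n ^ (l + 1)) ≤ count A c n} ⊆
        (Finset.range (N + 2) : Set ℕ) := by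
      rintro n ⟨h6, h7, h8⟩
      rw [Finset.coe_range, Set.mem_Iio]
      by_contra h9
      exact hcon ⟨n, not_lt.1 h9, h8⟩
    have h6 := Set.ncard_le_ncard h5 (Finset.finite_toSet _)
    rw [Set.ncard_coe_finset, card_range] at h6
    have h7 : ({n : ℕ | 1 ≤ n ∧ n ≤ X ∧ κ * ((n : ℝ) ^ A / Real.log n ^ (l + 1)) ≤ count A c n}.ncard : ℝ) ≤
        ((N + 2 : ℕ) : ℝ) := by exact_mod_cast h6
    linarith
  obtain ⟨n, hn1, hn2⟩ := h4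
  have hn : (1 : ℝ) < n := by
    have : 1 < n := by omega
    exact_mod_cast this
  have h5 : 0 < κ * ((n : ℝ) ^ A / Real.log n ^ (l + 1)) := by
    have : 0 < Real.log (n : ℝ) := Real.log_pos hn
    positivity
  have h6 : 0 < count A c n := by
    have : (0 : ℝ) < count A c n := lt_of_lt_of_le h5 hn2
    exact_mod_cast this
  obtain ⟨m, hm⟩ := Set.nonempty_of_ncard_ne_zero h6.ne'
  exact ⟨m, n, by omega, hm.2.1, hm.2.2⟩

theorem final (hP : S_POS) (hB : S_BOX) (hD : S_DEN) (l : ℕ) (hl : 0 < l) :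
    (∀ A : ℝ, ∀ᵐ c : Fin l → ℝ, (∀ i, 0 < c i ∧ c i < A) → ∃ κ : ℝ, 0 < κ ∧ ∃ᶠ X : ℕ in atTop,
      κ * X ≤ ({n : ℕ | 1 ≤ n ∧ n ≤ X ∧ κ * ((n : ℝ) ^ A / Real.log n ^ (l + 1)) ≤ count A c n}.ncard : ℝ)) ∧
    ∀ᵐ c : Fin l → ℝ, (∀ i, 0 < c i) → ∀ N : ℕ, ∃ m n : ℕ, N ≤ n ∧ m.Prime ∧
      ∀ i, (m + ⌊(n : ℝ) ^ (c i)⌋₊).Prime := by
  refine ⟨part1 hP hB hD l hl, ?_⟩
  filter_upwards [ae_all_iff.2 fun k : ℕ => part1 hP hB hD l hl (k : ℝ)] with c hc hc0 N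
  obtain ⟨k, hk⟩ : ∃ k : ℕ, ∀ i, c i < k := by
    have h1 : ∀ i, ∃ k : ℕ, c i < k := fun i => exists_nat_gt (c i)
    choose f hf using h1
    refine ⟨univ.sup f, fun i => lt_of_lt_of_le (hf i) ?_⟩
    exact_mod_cast Finset.le_sup (f := f) (mem_univ i)
  obtain ⟨κ, hκ, h⟩ := hc k fun i => ⟨hc0 i, hk i⟩
  exact part2 hκ h N

end Pool.Agent.P8H97.FE
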