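import Pool.Agent.Y851.DK.Stm

/-!
# Project FE (helper97): fractional powers in the primes, almost all exponents (MP_cb2931_nt, Q2)

Theorem. For almost all vectors `c = (c_1, ..., c_l)` of positive reals there are infinitely many `n` (a set of positive
upper density) for which some prime `m` has all `m + [n ^ c_i]` prime, with the right order of magnitude of the number
of these `m`.

Every package is a theorem with exactly the type named below (`theorem low : S_LOW`, `theorem svb : P_SV → S_SVB`,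
`theorem mom : P_AVG → S_MOM`, `theorem sec : S_SVB → S_MOM → S_SEC`, `theorem pos : S_LOW → S_SEC → S_POS`,
`theorem bx : S_BOX`, `theorem den : S_DEN`).
-/

set_option autoImplicit false

namespace Pool.Agent.P8H97.FE

open Finset Filter MeasureTheory Topology
open Pool.Agent.Y851.DK (sg P_SV P_AVG)

/-- the number of the primes `m ≤ N` for which all `m + h i` are prime -/
def cnt {l : ℕ} (N : ℕ) (h : Fin l → ℕ) : ℕ :=
  ((Icc 1 N).filter (fun m => m.Prime ∧ ∀ i, (m + h i).Prime)).card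

/-- the box of the vectors with `1 ≤ h i ≤ H i` -/
abbrev box {l : ℕ} (H : Fin l → ℕ) : Finset (Fin l → ℕ) := Fintype.piFinset fun i => Icc 1 (H i)

/-- `N / (log N) ^ (l + 1)` -/
noncomputable def R (l N : ℕ) : ℝ := N / Real.log N ^ (l + 1)

/-- the exponent in the sieve bound -/
noncomputable def S {l : ℕ} (h : Fin l → ℕ) : ℝ :=
  2 * ∑ i, sg (h i) + ∑ i, ∑ j, sg ((h j : ℤ) - (h i : ℤ)).natAbs

/-- LOW: lower bound on average.
Proof. Let `P` be the primes `≤ N`, `L = log N`, `#P ≥ c N / L` (Chebyshev, `N` large; in Mathlib or in the library).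
For `x ∈ P` let `T i x` be the set of the `p ∈ P` with `x < p` and `p / H i = x / H i` (division in `ℕ`), so
`1 ≤ p - x ≤ H i`. Put `τ i = ε H i / L`, `ε = c / (4 (l + 1))`. In every block `{y : y / H i = b}` at most
`τ i + 1` elements `x` of `P` have `#T i x ≤ τ i` (an element with `r` elements of `P` in the block to its right: the
numbers `r` are different, `x ↦ #T i x` is injective on the elements of `P` in a block). Better: use `#T i x < τ i`; the
values are different natural numbers `< τ i`, so there are at most `τ i + 1` of them; to lose nothing if `τ i < 1`, note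
that for `H i ≤ L / ε` one has `τ i ≤ 1`. (There the claim still needs care: if `τ i < 1` replace the condition on `i` by
nothing, see below.) There are at most `N / H i + 1 ≤ 2 N / H i` blocks. If all `H i ≥ L / ε` then at most
`∑ i (τ i + 1) 2 N / H i ≤ l · 4 ε N / L ≤ #P` ... (choose `ε = c / (8 (l + 1))`: at most `#P / 2`) elements `x` of `P` have
`#T i x < τ i` for some `i`; each of the other ones gives `∏ i, #T i x ≥ ∏ i, τ i` vectors `h` (`h i = p i - x`,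
`p i ∈ T i x`; different `(p i)` give different `h`), all `x + h i = p i` prime. So the sum is at least
`(#P / 2) ∏ i (ε H i / L)`. TO AVOID small `H i` the statement assumes `H i ≥ (log N) ^ 2`. -/
def S_LOW : Prop := ∀ l : ℕ, ∃ κ : ℝ, 0 < κ ∧ ∀ᶠ N : ℕ in atTop, ∀ H : Fin l → ℕ,
  (∀ i, Real.log N ^ 2 ≤ H i ∧ H i ≤ N) →
  κ * R l N * ∏ i, (H i : ℝ) ≤ ∑ h ∈ box H, (cnt N h : ℝ)

/-- SVB: the upper bound sieve (type `P_SV → S_SVB`).
Proof. `P_SV` with `r = l + 1`, `Y = N` (`Filter.Tendsto` of the cast), `F = insert (1, 0) (image (fun i => (1, (h i : ℤ))) univ)`,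
of cardinality `l + 1` as `h` is injective and positive. All determinants are differences of second coordinates.
The condition says that `n` and all `n + h i` are prime; `sg 1 = 0`, `sg 0 = 0`; the double sum over `F` is
`∑ i sg (h i) + ∑ i sg (h i) + ∑ i ∑ j sg |h j - h i| = S h`. -/
def S_SVB : Prop := ∀ l : ℕ, ∃ C : ℝ, 1 ≤ C ∧ ∀ᶠ N : ℕ in atTop, ∀ h : Fin l → ℕ, Function.Injective h →
  (∀ i, 1 ≤ h i) → (cnt N h : ℝ) ≤ C * Real.exp (C * S h) * R l N

/-- MOM: the exponential moments (type `P_AVG → S_MOM`).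
Proof. Let `K = 2 l + l ^ 2`. A sum of at most `K` (counting the `sg (h i)` twice) nonnegative numbers is at most `K` times
the largest, so `exp (c S h) ≤ 1 + ∑ i exp (c K sg (h i)) + ∑_{i ≠ j} exp (c K sg |h j - h i|)` (for `i = j` the
summand is `sg 0 = 0`). Sum over the box. By `P_AVG` (with `α = 1`, `β = 0`, `X = N`, `M = H i`; `sgn 1 m = sg m`) the sum over
`h i ≤ H i` of `exp (c K sg (h i))` is at most `C H i`, and for a fixed value `y ≤ N` of `h j` (with `α = 1`, `β = y`) the sum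
over `h i ≤ H i` of `exp (c K sg |h i - y|)` is at most `C H i`. The other coordinates contribute their numbers `H j`
(`Finset.prod_univ_sum` with factors equal to one, or `Fintype.piFinset` and a fibration over the coordinate `i`). -/
def S_MOM : Prop := ∀ (l : ℕ) (c η : ℝ), 0 < c → 0 < η → ∃ C : ℝ, 1 ≤ C ∧ ∀ᶠ N : ℕ in atTop, ∀ H : Fin l → ℕ,
  (∀ i, (N : ℝ) ^ η ≤ H i ∧ H i ≤ N) → ∑ h ∈ box H, Real.exp (c * S h) ≤ C * ∏ i, (H i : ℝ)

/-- SEC: the second moment (type `S_SVB → S_MOM → S_SEC`).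
Proof. For injective `h` in the box `cnt N h ^ 2 ≤ C ^ 2 exp (2 C S h) (R l N) ^ 2`, and the sum of `exp (2 C S h)` is bounded by
`S_MOM` with `c = 2 C`. For the others `cnt N h ≤ N`; for each pair `i ≠ j` the number of `h` in the box with
`h i = h j` is at most `∏ H / H i ≤ N ^ (-η) ∏ H` (`h i` is determined by the other coordinates), so they contribute at most
`l ^ 2 N ^ (2 - η) ∏ H ≤ (R l N) ^ 2 ∏ H` for large `N`, as `(log N) ^ (2 l + 2) l ^ 2 ≤ N ^ η`. -/
def S_SEC : Prop := ∀ (l : ℕ) (η : ℝ), 0 < η → ∃ C : ℝ, 1 ≤ C ∧ ∀ᶠ N : ℕ in atTop, ∀ H : Fin l → ℕ,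
  (∀ i, (N : ℝ) ^ η ≤ H i ∧ H i ≤ N) → ∑ h ∈ box H, (cnt N h : ℝ) ^ 2 ≤ C * R l N ^ 2 * ∏ i, (H i : ℝ)

/-- POS: a positive proportion of the shifts (type `S_LOW → S_SEC → S_POS`).
Proof. Let `κ₁` be the constant of LOW, `C` of SEC, `D = ∏ H`. The `h` with `cnt N h < (κ₁ / 2) R` contribute at most
`(κ₁ / 2) R D` to the sum of LOW, so the others contribute at least `(κ₁ / 2) R D`, and by Cauchy-Schwarz their number is at
least `((κ₁ / 2) R D) ^ 2 / (C R ^ 2 D) = κ₁ ^ 2 / (4 C) D`. Take `κ = min (κ₁ / 2) (κ₁ ^ 2 / (4 C))`. For large `N` one has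
`(log N) ^ 2 ≤ N ^ η`. -/
def S_POS : Prop := ∀ (l : ℕ) (η : ℝ), 0 < η → ∃ κ : ℝ, 0 < κ ∧ ∀ᶠ N : ℕ in atTop, ∀ H : Fin l → ℕ,
  (∀ i, (N : ℝ) ^ η ≤ H i ∧ H i ≤ N) →
  κ * ∏ i, (H i : ℝ) ≤ (((box H).filter (fun h => κ * R l N ≤ cnt N h)).card : ℝ)

open Classical in
/-- BOX: from the shifts to the exponents (Mathlib only).
Proof. Choose `w > 0` with `λ = exp w ≥ 16 l / κ + 2`. For large `n` let `H i = ⌊λ n ^ (x i)⌋`, so `H i ≥ (λ / 2) n ^ (x i)`.
The `h ∈ box H` with some `h i < n ^ (x i)` are at most `∑ i (n ^ (x i) / H i) ∏ H ≤ (2 l / λ) ∏ H`, those with some `h i = H i` at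
most `∑ i (1 / H i) ∏ H`. So at least `(κ / 2) ∏ H` of the `h ∈ T n ∩ box H` have `n ^ (x i) ≤ h i` and `h i + 1 ≤ λ n ^ (x i)` for
all `i`. For such `h` the set `Q h = {c | ∀ i, log (h i) / log n ≤ c i < log (h i + 1) / log n}` is contained in
`closedBall x (w / log n)`, and `⌊n ^ (c i)⌋ = h i` on it; the sets `Q h` are disjoint; the volume of `Q h` is
`∏ i log (1 + 1 / h i) / log n ≥ ∏ i 1 / (2 H i log n)` (`Real.volume_pi_Ico`). Sum: the volume is at least
`(κ / 2) (1 / (2 log n)) ^ l = (κ / 2) (1 / (4 w)) ^ l (2 w / log n) ^ l`. -/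
def S_BOX : Prop := ∀ (l : ℕ), 0 < l → ∀ (x : Fin l → ℝ), (∀ i, 0 < x i) → ∀ (κ : ℝ), 0 < κ →
  ∀ T : ℕ → Set (Fin l → ℕ),
  (∀ w : ℝ, 0 < w → ∀ᶠ n : ℕ in atTop,
    κ * ∏ i, (⌊Real.exp w * (n : ℝ) ^ (x i)⌋₊ : ℝ) ≤
      (((box (fun i => ⌊Real.exp w * (n : ℝ) ^ (x i)⌋₊)).filter (fun h => h ∈ T n)).card : ℝ)) →
  ∃ w : ℝ, 0 < w ∧ ∃ δ : ℝ, 0 < δ ∧ ∀ᶠ n : ℕ in atTop,
    δ * (2 * (w / Real.log n)) ^ l ≤
      volume.real ({c : Fin l → ℝ | (fun i => ⌊(n : ℝ) ^ (c i)⌋₊) ∈ T n} ∩ Metric.closedBall x (w / Real.log n))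

open Classical in
/-- DEN: the Lebesgue density theorem (Mathlib only).
Proof. For `k, K ∈ ℕ` let `S k K = {x | ∀ X ≥ K, (k + 1) #{1 ≤ n ≤ X : x ∈ G n} ≤ X}`, measurable. By
`IsUnifLocDoublingMeasure.ae_tendsto_measure_inter_div` (`K = 1`) almost every `x` has the property: for all `k, K` with
`x ∈ S k K` and all positive sequences `r_X → 0` the quotients `volume (S k K ∩ closedBall x r_X) / volume (closedBall x r_X)`
tend to `1`. Let `x` be such a point of `Ω`, with `w`, `δ` as in the hypothesis, and suppose that for all `θ > 0` eventually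
`#{n ≤ X : x ∈ G n} < θ X`; choose `k` with `1 / (k + 1) < δ 2 ^ (-l-1) / 4` and `K` with `x ∈ S k K`. Let `r = 2 w / log X`,
`B = closedBall x r`, `vol B = (2 r) ^ l` (`Real.volume_pi_closedBall`). For large `X` and `√X ≤ n ≤ X` one has
`w / log X ≤ w / log n ≤ r`, so `vol (G n ∩ B) ≥ δ (2 w / log X) ^ l = δ 2 ^ (-l) vol B`. Sum over these `n` (at least `X / 2`):
`δ 2 ^ (-l-1) X vol B ≤ ∑_{n ≤ X} vol (G n ∩ B) = ∫_B #{n ≤ X : y ∈ G n} dy ≤ (X / (k + 1)) vol B + X vol (B ∖ S k K)`,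
and `vol (B ∖ S k K) ≤ (δ 2 ^ (-l-1) / 4) vol B` for large `X`: a contradiction. (Bound the sum of volumes:
`G n ∩ B ⊆ (G n ∩ B ∩ S) ∪ (B ∖ S)` and `∑ n vol (G n ∩ B ∩ S) = ∫_{B ∩ S} ∑ n 1_(G n)`.) -/
def S_DEN : Prop := ∀ (l : ℕ), 0 < l → ∀ (G : ℕ → Set (Fin l → ℝ)), (∀ n, MeasurableSet (G n)) →
  ∀ Ω : Set (Fin l → ℝ),
  (∀ x ∈ Ω, ∃ w : ℝ, 0 < w ∧ ∃ δ : ℝ, 0 < δ ∧ ∀ᶠ n : ℕ in atTop,
    δ * (2 * (w / Real.log n)) ^ l ≤ volume.real (G n ∩ Metric.closedBall x (w / Real.log n))) →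
  ∀ᵐ x ∂(volume : Measure (Fin l → ℝ)), x ∈ Ω → ∃ δ : ℝ, 0 < δ ∧ ∃ᶠ X : ℕ in atTop,
    δ * X ≤ (((Icc 1 X).filter (fun n => x ∈ G n)).card : ℝ)

end Pool.Agent.P8H97.FE
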