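import Pool.Agent.P8H97.FE.Stm
import Pool.Agent.H560R3.GB.Defs

/-!
# Project FE, second part (helper97): three term progressions of primes with difference `[n ^ c]` (MP_cb2931_nt, Q1)

Theorem. For almost all `c > 0` the numbers `m`, `m + [n ^ c]`, `m + 2 [n ^ c]` are prime for infinitely many `n` (a set of
positive upper density) and some `m`.

Packages: `theorem ap : S_FAM → S_AP`, `theorem up : P_AVG → S_SVB → S_UP`, `theorem thr : S_AP → S_UP → S_THR`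
(`S_FAM` is a theorem of the starting files, `Pool.Agent.W93.GB4`).
-/

set_option autoImplicit false

namespace Pool.Agent.P8H97.FE

open Finset Filter MeasureTheory Topology
open Pool.Agent.Y851.DK (sg P_SV P_AVG)
open Pool.Agent.H560R3.GB (g HL sing C₂)

/-- the number of the `m ≤ N` for which `m`, `m + d`, `m + 2 d` are prime -/
def tri (N d : ℕ) : ℕ := ((Icc 1 N).filter (fun m => m.Prime ∧ (m + d).Prime ∧ (m + 2 * d).Prime)).card

/-- FAM: Goldbach's problem for almost all even numbers (starting files) -/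
def S_FAM : Prop := ∃ N₀ : ℕ, ∀ N : ℕ, N₀ ≤ N → ∀ S : Finset ℕ, S ⊆ Icc 1 N →
  (∀ m ∈ S, (g (2 * m) : ℝ) < (1 / 2) * HL (2 * m)) → (S.card : ℝ) ≤ N / Real.log N ^ 2

/-- AP (type `S_FAM → S_AP`): lower bound on average.
Proof. `C₂ > 0` (the library: search for `C₂_pos` or use `1 - 1 / (p - 1) ^ 2`, product at least `1/2`), so
`sing n ≥ 2 C₂ > 0` and `(1/2) HL (2 q) ≥ c q / (log N) ^ 2` for `2 ≤ q ≤ N`. By Chebyshev (Mathlib: `Chebyshev.pi_ge`,
`Chebyshev.eventually_primeCounting_le`) there is `ε > 0` with at least `c' N / log N` primes `q` in `(ε N, N]`, and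
by FAM all but `N / (log N) ^ 2` of them have `g (2 q) ≥ (1/2) HL (2 q) ≥ c ε N / (log N) ^ 2`. In a representation
`2 q = p₁ + p₂`, `p₁ < p₂` (half of the ordered representations with `p₁ ≠ p₂`, that is of all but one), put `m = p₁`,
`d = q - p₁`: then `1 ≤ d ≤ N`, `m ≤ N`, `m + d = q`, `m + 2 d = p₂`. Different `(q, p₁)` give different `(m, d)`. -/
def S_AP : Prop := ∃ κ : ℝ, 0 < κ ∧ ∀ᶠ N : ℕ in atTop, κ * (N * (N / Real.log N ^ 3)) ≤ ∑ d ∈ Icc 1 N, (tri N d : ℝ)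

/-- UP (type `P_AVG → S_SVB → S_UP`): the second moment.
Proof. `tri N d = cnt N ![d, 2 * d]`, `![d, 2 d]` is injective and positive for `d ≥ 1`, so by SVB (`l = 2`)
`tri N d ≤ C exp (C S ![d, 2 d]) N / (log N) ^ 3`, and `S ![d, 2 d] = 2 sg d + 2 sg (2 d) + 2 sg d ≤ 6 sg d + 1`
(`sg (2 d) ≤ sg d + 1 / 2`). Sum of `exp (12 C sg d)` over `d ≤ N`: P_AVG with `α = 1`, `β = 0`, `X = M = N`, `η = 1`. -/
def S_UP : Prop := ∃ C : ℝ, 1 ≤ C ∧ ∀ᶠ N : ℕ in atTop, ∑ d ∈ Icc 1 N, (tri N d : ℝ) ^ 2 ≤ C * (N * (N / Real.log N ^ 3) ^ 2)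

/-- THR (type `S_AP → S_UP → S_THR`): a positive proportion of the differences.
Proof. Cauchy-Schwarz as in POS: for large `N` at least `κ₂ N` of the `d ≤ N` have `tri N d ≥ κ₂ N / (log N) ^ 3`. At most
`(κ₂ / 2) N` of them are at most `(κ₂ / 2) N`; for the others `N ≤ K d` with `K = ⌈2 / κ₂⌉`, so `tri (K * d) d ≥ tri N d ≥
κ₂ N / (log N) ^ 3 ≥ κ₂ d / (log N) ^ 3 ≥ (κ₂ / 8) d / (log d) ^ 3` (`log N ≤ 2 log d` for large `N`). -/
def S_THR : Prop := ∃ κ : ℝ, 0 < κ ∧ ∃ K : ℕ, ∀ᶠ N : ℕ in atTop,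
  κ * N ≤ (((Icc 1 N).filter (fun d : ℕ => 2 ≤ d ∧ κ * (d / Real.log d ^ 3) ≤ tri (K * d) d)).card : ℝ)

end Pool.Agent.P8H97.FE
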